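import Mathlib
import Pool.Agent.N15.RC.Def

/-!
Curvature in slabs: definitions.
-/

set_option autoImplicit false

namespace Run7.h117.SR

open scoped ContDiff RealInnerProductSpace ENNReal NNReal Topology
open MeasureTheory Set Metric Filter
open Pool.Agent.Y503.RB Pool.Agent.N503.ML Pool.Agent.N15.RC

/-- The directions that make an angle less than `arccos κ` with the vertical. -/
def Dir (κ : ℝ) : Set E4 := {y | κ * ‖y‖ < y 3}

/-- The area of the spherical cap of the unit vectors `n` with `n₃ > κ`: four times the volume of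
the cone over it. -/
noncomputable def capArea (κ : ℝ) : ℝ≥0∞ := 4 * volume (ball (0 : E4) 1 ∩ Dir κ)

open Classical in
/-- Density of the lower curvature, only for the normal vectors `n` with `n₃ > κ`. -/
noncomputable def densLow (κ : ℝ) (φ : ℂ → E4) (n : E4) (z : ℂ) : ℝ :=
  if κ < n 3 ∧ Cup φ n z then kdet φ n z / √(fffDet φ z) else 0

open Classical in
/-- Density of the upper curvature, only for the normal vectors `n` with `n₃ > κ`. -/
noncomputable def densUpp (κ : ℝ) (φ : ℂ → E4) (n : E4) (z : ℂ) : ℝ :=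
  if κ < n 3 ∧ Cap φ n z then kdet φ n z / √(fffDet φ z) else 0

/-- Integral of the density over the circle of unit normal vectors at `φ z`. (All `L` in the
supremum give the same value.) -/
noncomputable def curvLow (κ : ℝ) (φ : ℂ → E4) (z : ℂ) : ℝ≥0∞ :=
  ⨆ (L : ℂ →ₗᵢ[ℝ] E4) (_ : ∀ w v : ℂ, ⟪L w, d1 φ v z⟫ = 0),
    ∫⁻ θ in Ico 0 (2 * Real.pi), ENNReal.ofReal (densLow κ φ (L ⟨Real.cos θ, Real.sin θ⟩) z)

/-- The same for the upper curvature. -/
noncomputable def curvUpp (κ : ℝ) (φ : ℂ → E4) (z : ℂ) : ℝ≥0∞ :=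
  ⨆ (L : ℂ →ₗᵢ[ℝ] E4) (_ : ∀ w v : ℂ, ⟪L w, d1 φ v z⟫ = 0),
    ∫⁻ θ in Ico 0 (2 * Real.pi), ENNReal.ofReal (densUpp κ φ (L ⟨Real.cos θ, Real.sin θ⟩) z)

/-- Lower total curvature of the part `A` of the disc. -/
noncomputable def lowIn (κ : ℝ) (φ : ℂ → E4) (A : Set ℂ) : ℝ≥0∞ := ∫⁻ z in A, curvLow κ φ z

/-- Upper total curvature of the part `A` of the disc. -/
noncomputable def uppIn (κ : ℝ) (φ : ℂ → E4) (A : Set ℂ) : ℝ≥0∞ := ∫⁻ z in A, curvUpp κ φ z

/-- Lower total curvature of the part `A` of the disc, with all the normal vectors. -/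
noncomputable def lowAll (φ : ℂ → E4) (A : Set ℂ) : ℝ≥0∞ := ∫⁻ z in A, curvL φ z

/-- Upper total curvature of the part `A` of the disc, with all the normal vectors. -/
noncomputable def uppAll (φ : ℂ → E4) (A : Set ℂ) : ℝ≥0∞ := ∫⁻ z in A, curvE φ z

/-- The part of the disc between the levels `c i` and `c (i + 1)`, above `c k` for `i = k`. -/
def Slab (φ : ℂ → E4) (c : ℕ → ℝ) (k i : ℕ) : Set ℂ :=
  {z | z ∈ ball (0 : ℂ) 1 ∧ c i < φ z 3 ∧ (i < k → φ z 3 < c (i + 1))}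

/-- The number of local minima of the height in the part `A` of the disc. -/
noncomputable def minIn (ψ : ℂ → E4) (A : Set ℂ) : ℕ∞ :=
  {z : ℂ | z ∈ A ∧ IsLocalMin (fun w => ψ w 3) z}.encard

/-- The number of local maxima of the height in the part `A` of the disc. -/
noncomputable def maxIn (ψ : ℂ → E4) (A : Set ℂ) : ℕ∞ :=
  {z : ℂ | z ∈ A ∧ IsLocalMax (fun w => ψ w 3) z}.encard

/-- At `φ z` the disc is steep: its tangent plane makes an angle larger than `arccos κ` with the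
horizontal hyperplane, that is, `n₃ < κ` for all unit normal vectors `n`. -/
def SteepAt (κ : ℝ) (φ : ℂ → E4) (z : ℂ) : Prop :=
  ∀ n : E4, ‖n‖ = 1 → (∀ v : ℂ, ⟪n, d1 φ v z⟫ = 0) → n 3 < κ

/-- At `φ z` the disc is vertical: all normal vectors are horizontal. -/
def VertAt (φ : ℂ → E4) (z : ℂ) : Prop :=
  ∀ n : E4, ‖n‖ = 1 → (∀ v : ℂ, ⟪n, d1 φ v z⟫ = 0) → n 3 = 0

/-- The levels: increasing, starting with `0`. -/
structure Levels (c : ℕ → ℝ) (k : ℕ) : Prop where
  zero : c 0 = 0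
  lt : ∀ i < k, c i < c (i + 1)

/-- The disc crosses the levels `c 1, …, c k` steeply. -/
def SteepLevels (κ : ℝ) (φ : ℂ → E4) (c : ℕ → ℝ) (k : ℕ) : Prop :=
  ∀ i, 1 ≤ i → i ≤ k → ∀ z ∈ ball (0 : ℂ) 1, φ z 3 = c i → SteepAt κ φ z

/-- Levels which the disc crosses steeply. -/
def Cut (κ : ℝ) (φ : ℂ → E4) (c : ℕ → ℝ) (k : ℕ) : Prop := Levels c k ∧ SteepLevels κ φ c k

/-- `φ` is a slice disc bounded by `γ`. -/
def Bounds (γ φ : ℂ → E4) : Prop := HalfDisc φ ∧ ∀ z ∈ sphere (0 : ℂ) 1, φ z = γ z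

/-- Ribbon: the height of some disc is a Morse function without local minima. -/
def Ribbon (γ : ℂ → E4) : Prop := ∃ ψ : ℂ → E4, Bounds γ ψ ∧ MorseHt ψ ∧ nmin ψ = 0

end Run7.h117.SR
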