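import Mathlib
import Pool.Agent.N15.RC.Lift

/-!
Discs on which the height is a given linear function in each of several slabs: the slabs are
separated by zones in which the disc is steep.
-/

set_option autoImplicit false

namespace Run7.h117.SR

open scoped ContDiff RealInnerProductSpace ENNReal Topology
open MeasureTheory Set Metric Filter
open Pool.Agent.Y503.RB Pool.Agent.N503.ML Pool.Agent.N15.RC

/-- transition from `0` to `1` in `[a, b]` -/
noncomputable def tr (a b t : ℝ) : ℝ := Real.smoothTransition ((t - a) / (b - a))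

variable {a b t : ℝ}

lemma tr_mono (hab : a < b) : Monotone (tr a b) := fun s t h =>
  Real.smoothTransition.monotone (by
    have : 0 < b - a := sub_pos.2 hab
    gcongr)

lemma tr_smooth (a b : ℝ) : ContDiff ℝ ∞ (tr a b) :=
  Real.smoothTransition.contDiff.comp ((contDiff_id.sub contDiff_const).div_const _)

lemma tr_zero (hab : a < b) (ht : t ≤ a) : tr a b t = 0 :=
  Real.smoothTransition.zero_of_nonpos
    (div_nonpos_of_nonpos_of_nonneg (by linarith) (by linarith))

lemma tr_one (hab : a < b) (ht : b ≤ t) : tr a b t = 1 :=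
  Real.smoothTransition.one_of_one_le ((one_le_div (by linarith)).2 (by linarith))

lemma tr_nonneg : 0 ≤ tr a b t := Real.smoothTransition.nonneg _

lemma tr_le_one : tr a b t ≤ 1 := Real.smoothTransition.le_one _

/-- sum of the vertical displacements -/
noncomputable def mG (k : ℕ) (g : ℕ → ℝ → ℝ) (T : ℝ) (D : ℕ → E4) (x : E4) : ℝ :=
  ∑ i ∈ Finset.range (k + 1), g i (x 3) * (T + ⟪D i, x⟫)

/-- the diffeomorphism -/
noncomputable def mlift (k : ℕ) (g : ℕ → ℝ → ℝ) (T : ℝ) (D : ℕ → E4) (x : E4) : E4 :=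
  x + mG k g T D x • vert

variable {k : ℕ} {g : ℕ → ℝ → ℝ} {T : ℝ} {D : ℕ → E4}

theorem mlift_three (x : E4) : mlift k g T D x 3 = x 3 + mG k g T D x := by
  have : mlift k g T D x 3 = x 3 + (mG k g T D x) * vert 3 := rfl
  rw [this, vert_three, mul_one]

theorem mlift_inj (hg : ∀ i, Monotone (g i)) (hD : ∀ i, D i 3 = 0) {x x' : E4}
    (hx : ∀ i ≤ k, 0 < T + ⟪D i, x⟫) (h : mlift k g T D x = mlift k g T D x') : x = x' := by
  have hqv : ∀ i, ⟪D i, vert⟫ = 0 := fun i => by rw [real_inner_comm, inner_vert]; exact hD i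
  have h1 : x - x' = (mG k g T D x' - mG k g T D x) • vert := by
    unfold mlift at h
    rw [sub_smul]
    have := sub_eq_zero.2 h
    rw [← sub_eq_zero]
    rw [← this]
    abel
  have h2 : ∀ i, ⟪D i, x⟫ = ⟪D i, x'⟫ := by
    intro i
    have := congrArg (fun w => ⟪D i, w⟫) h1
    simp only [inner_sub_right, inner_smul_right, hqv, mul_zero] at this
    linarith
  have h3 := congrArg (fun w : E4 => w 3) h
  simp only [mlift_three] at h3
  have hmono : ∀ s t : ℝ, s ≤ t → ∑ i ∈ Finset.range (k + 1), g i s * (T + ⟪D i, x⟫) ≤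
      ∑ i ∈ Finset.range (k + 1), g i t * (T + ⟪D i, x⟫) := fun s t hst =>
    Finset.sum_le_sum fun i hi => mul_le_mul_of_nonneg_right (hg i hst)
      (hx i (by have := Finset.mem_range.1 hi; omega)).le
  have e' : mG k g T D x' = ∑ i ∈ Finset.range (k + 1), g i (x' 3) * (T + ⟪D i, x⟫) := by
    unfold mG
    exact Finset.sum_congr rfl fun i _ => by rw [h2]
  have h4 : x 3 = x' 3 := by
    rcases lt_trichotomy (x 3) (x' 3) with h5 | h5 | h5
    · have := hmono _ _ h5.le
      rw [e'] at h3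
      unfold mG at h3
      linarith
    · exact h5
    · have := hmono _ _ h5.le
      rw [e'] at h3
      unfold mG at h3
      linarith
  have h5 : x - x' = 0 := by
    rw [h1, e']
    unfold mG
    rw [h4, sub_self, zero_smul]
  exact sub_eq_zero.1 h5

/-- factor of the vertical derivative -/
noncomputable def kap (k : ℕ) (g : ℕ → ℝ → ℝ) (T : ℝ) (D : ℕ → E4) (x : E4) : ℝ :=
  ∑ i ∈ Finset.range (k + 1), deriv (g i) (x 3) * (T + ⟪D i, x⟫)

/-- horizontal part of the direction at the height `t` -/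
noncomputable def hor (k : ℕ) (g : ℕ → ℝ → ℝ) (D : ℕ → E4) (t : ℝ) : E4 :=
  ∑ i ∈ Finset.range (k + 1), g i t • D i

theorem hor_three (hD : ∀ i, D i 3 = 0) (t : ℝ) : hor k g D t 3 = 0 := by
  have h : (EuclideanSpace.proj (3 : Fin 4) : E4 →L[ℝ] ℝ) (hor k g D t) = 0 := by
    unfold hor
    rw [map_sum]
    refine Finset.sum_eq_zero fun i _ => ?_
    rw [map_smul]
    have : (EuclideanSpace.proj (3 : Fin 4) : E4 →L[ℝ] ℝ) (D i) = 0 := hD i
    rw [this, smul_zero]
  exact h

theorem kap_nonneg (hg : ∀ i, Monotone (g i)) {x : E4} (hx : ∀ i ≤ k, 0 < T + ⟪D i, x⟫) :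
    0 ≤ kap k g T D x :=
  Finset.sum_nonneg fun i hi => mul_nonneg (hg i).deriv_nonneg
    (hx i (by have := Finset.mem_range.1 hi; omega)).le

theorem mlift_deriv (hg : ∀ i, Monotone (g i)) (hgs : ∀ i, ContDiff ℝ ∞ (g i))
    (hD : ∀ i, D i 3 = 0) {φ : ℂ → E4} {z : ℂ} (hs : ContDiffAt ℝ ∞ φ z)
    (hx : ∀ i ≤ k, 0 < T + ⟪D i, φ z⟫) (hi : Function.Injective (fderiv ℝ φ z)) :
    (∀ v, fderiv ℝ (fun w => mlift k g T D (φ w)) z v = d1 φ v z +
      (kap k g T D (φ z) * (d1 φ v z) 3 + ⟪hor k g D (φ z 3), d1 φ v z⟫) • vert) ∧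
    Function.Injective (fderiv ℝ (fun w => mlift k g T D (φ w)) z) := by
  have hd : DifferentiableAt ℝ φ z := hs.differentiableAt (by simp)
  have h3 : HasFDerivAt (fun w => φ w 3)
      ((EuclideanSpace.proj (3 : Fin 4) : E4 →L[ℝ] ℝ).comp (fderiv ℝ φ z)) z :=
    (EuclideanSpace.proj (3 : Fin 4) : E4 →L[ℝ] ℝ).hasFDerivAt.comp z hd.hasFDerivAt
  have h4 : ∀ i, HasFDerivAt (fun w => g i (φ w 3)) (deriv (g i) (φ z 3) •
      ((EuclideanSpace.proj (3 : Fin 4) : E4 →L[ℝ] ℝ).comp (fderiv ℝ φ z))) z := fun i =>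
    (((hgs i).differentiable (by simp)) _).hasDerivAt.comp_hasFDerivAt z h3
  have h5 : ∀ i, HasFDerivAt (fun w => T + ⟪D i, φ w⟫) ((innerSL ℝ (D i)).comp (fderiv ℝ φ z)) z :=
    fun i => ((innerSL ℝ (D i)).hasFDerivAt.comp z hd.hasFDerivAt).const_add T
  have h6 := HasFDerivAt.fun_sum (u := Finset.range (k + 1)) fun i _ => (h4 i).mul (h5 i)
  have h6' := hd.hasFDerivAt.add (h6.smul_const vert)
  have h7 : ∀ v, fderiv ℝ (fun w => mlift k g T D (φ w)) z v = d1 φ v z +
      (kap k g T D (φ z) * (d1 φ v z) 3 + ⟪hor k g D (φ z 3), d1 φ v z⟫) • vert := by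
    intro v
    have h8 : fderiv ℝ (fun w => mlift k g T D (φ w)) z = _ := h6'.fderiv
    rw [h8]
    show d1 φ v z + ((∑ i ∈ Finset.range (k + 1), (g i (φ z 3) •
      ((innerSL ℝ (D i)).comp (fderiv ℝ φ z)) + (T + ⟪D i, φ z⟫) • (deriv (g i) (φ z 3) •
      ((EuclideanSpace.proj (3 : Fin 4) : E4 →L[ℝ] ℝ).comp (fderiv ℝ φ z))))) v) • vert = _
    congr 2
    rw [sum_apply]
    unfold kap hor
    rw [sum_inner, Finset.sum_mul, ← Finset.sum_add_distrib]
    refine Finset.sum_congr rfl fun i _ => ?_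
    rw [real_inner_smul_left]
    show g i (φ z 3) * ⟪D i, d1 φ v z⟫ + (T + ⟪D i, φ z⟫) * (deriv (g i) (φ z 3) *
      (d1 φ v z) 3) = _
    ring
  refine ⟨h7, ?_⟩
  rw [injective_iff_map_eq_zero]
  intro v hv
  rw [h7] at hv
  have hqv : ∀ i, ⟪D i, vert⟫ = 0 := fun i => by rw [real_inner_comm, inner_vert]; exact hD i
  have h8 : ∀ i, ⟪D i, d1 φ v z⟫ = 0 := by
    intro i
    have := congrArg (fun w => ⟪D i, w⟫) hv
    simpa [inner_add_right, inner_smul_right, hqv i] using this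
  have h8' : ⟪hor k g D (φ z 3), d1 φ v z⟫ = 0 := by
    unfold hor
    rw [sum_inner]
    refine Finset.sum_eq_zero fun i _ => ?_
    rw [real_inner_smul_left, h8, mul_zero]
  rw [h8', add_zero] at hv
  have h9 : (d1 φ v z) 3 * (1 + kap k g T D (φ z)) = 0 := by
    have := congrArg (fun w : E4 => w 3) hv
    have e : (d1 φ v z + (kap k g T D (φ z) * (d1 φ v z) 3) • vert) 3 =
      (d1 φ v z) 3 + (kap k g T D (φ z) * (d1 φ v z) 3) * vert 3 := rfl
    simp only [e, vert_three, mul_one] at this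
    have e2 : (0 : E4) 3 = 0 := rfl
    rw [e2] at this
    linarith
  have h10 : 0 < 1 + kap k g T D (φ z) := by
    have := kap_nonneg hg hx
    linarith
  have h11 : (d1 φ v z) 3 = 0 := (mul_eq_zero.1 h9).resolve_right h10.ne'
  rw [h11, mul_zero, zero_smul, add_zero] at hv
  exact hi (hv.trans (map_zero _).symm)

end Run7.h117.SR
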