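import Mathlib
import Pool.Agent.Run7.h117.SR.Def
import Pool.Agent.Run7.h117.SR.MLift

/-!
The disc on which the height is a given linear function in each slab.
-/

set_option autoImplicit false

namespace Run7.h117.SR

open scoped ContDiff RealInnerProductSpace ENNReal Topology
open MeasureTheory Set Metric Filter
open Pool.Agent.Y503.RB Pool.Agent.N503.ML Pool.Agent.N15.RC

theorem SteepAt.lt {κ : ℝ} {φ : ℂ → E4} {z : ℂ} (h : SteepAt κ φ z) {y : E4} (hy : y ≠ 0)
    (hn : ∀ v : ℂ, ⟪y, d1 φ v z⟫ = 0) : y 3 < κ * ‖y‖ := by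
  have hy0 : 0 < ‖y‖ := norm_pos_iff.2 hy
  have h1 := h (‖y‖⁻¹ • y) (by rw [norm_smul, norm_inv, norm_norm, inv_mul_cancel₀ hy0.ne'])
    (fun v => by rw [real_inner_smul_left, hn, mul_zero])
  have h2 : (‖y‖⁻¹ • y) 3 = ‖y‖⁻¹ * y 3 := rfl
  rw [h2, inv_mul_lt_iff₀ hy0] at h1
  linarith

/-- closed cone around the vertical -/
def CC (κ : ℝ) : Set E4 := {y | κ * ‖y‖ ≤ y 3}

lemma cc_add {κ : ℝ} (hκ : 0 ≤ κ) {x y : E4} (hx : x ∈ CC κ) (hy : y ∈ CC κ) : x + y ∈ CC κ := by
  have h1 : (x + y) 3 = x 3 + y 3 := rfl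
  have h2 := mul_le_mul_of_nonneg_left (norm_add_le x y) hκ
  have hx' : κ * ‖x‖ ≤ x 3 := hx
  have hy' : κ * ‖y‖ ≤ y 3 := hy
  show κ * ‖x + y‖ ≤ (x + y) 3
  rw [h1]
  linarith

lemma cc_smul {κ : ℝ} {r : ℝ} (hr : 0 ≤ r) {y : E4} (hy : y ∈ CC κ) : r • y ∈ CC κ := by
  have hy' : κ * ‖y‖ ≤ y 3 := hy
  show κ * ‖r • y‖ ≤ (r • y) 3
  have h1 : (r • y) 3 = r * y 3 := rfl
  rw [h1, norm_smul, Real.norm_eq_abs, abs_of_nonneg hr]
  nlinarith

lemma cc_vert {κ : ℝ} (hκ : κ ≤ 1) : vert ∈ CC κ := by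
  show κ * ‖vert‖ ≤ vert 3
  rw [norm_vert, vert_three]
  linarith

/-- the successive differences of the directions -/
noncomputable def dif (y : ℕ → E4) : ℕ → E4
  | 0 => y 0 - vert
  | i + 1 => y (i + 1) - y i

lemma sum_dif (y : ℕ → E4) (j : ℕ) : vert + ∑ i ∈ Finset.range (j + 1), dif y i = y j := by
  induction j with
  | zero => simp [dif]
  | succ j ih =>
    rw [Finset.sum_range_succ, ← add_assoc, ih]
    simp [dif]

/-- the transitions -/
noncomputable def trs (a b : ℕ → ℝ) (i : ℕ) : ℝ → ℝ := tr (a i) (b i)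

section
variable {k : ℕ} {a b : ℕ → ℝ} {y : ℕ → E4}

lemma below (hab : ∀ i, a i < b i) (hba : ∀ i, b i < a (i + 1)) {i j : ℕ} (hij : i < j) :
    b i < a j := by
  have hm : StrictMono a := strictMono_nat_of_lt_succ fun n => (hab n).trans (hba n)
  have h1 : a (i + 1) ≤ a j := hm.monotone hij
  exact (hba i).trans_le h1

lemma hor_ge (hab : ∀ i, a i < b i) (hba : ∀ i, b i < a (i + 1)) {j : ℕ} {t : ℝ}
    (ht : b j ≤ t) : vert + hor j (trs a b) (dif y) t = y j := by
  rw [← sum_dif y j]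
  unfold hor
  congr 1
  refine Finset.sum_congr rfl fun i hi => ?_
  have hi' : i ≤ j := by have := Finset.mem_range.1 hi; omega
  have h1 : b i ≤ t := by
    rcases hi'.lt_or_eq with h | h
    · exact ((below hab hba h).trans (hab j)).le.trans ht
    · rw [h]; exact ht
  unfold trs
  rw [tr_one (hab i) h1, one_smul]

lemma hor_cc {κ : ℝ} (hκ : 0 ≤ κ) (hκ1 : κ ≤ 1) (hab : ∀ i, a i < b i)
    (hba : ∀ i, b i < a (i + 1)) (hy : ∀ i, y i ∈ CC κ) (j : ℕ) (t : ℝ) :
    vert + hor j (trs a b) (dif y) t ∈ CC κ := by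
  induction j with
  | zero =>
    have e : vert + hor 0 (trs a b) (dif y) t =
        (1 - tr (a 0) (b 0) t) • vert + tr (a 0) (b 0) t • y 0 := by
      unfold hor trs
      rw [Finset.sum_range_one]
      simp only [dif, smul_sub, sub_smul, one_smul]
      abel
    rw [e]
    exact cc_add hκ (cc_smul (sub_nonneg.2 tr_le_one) (cc_vert hκ1)) (cc_smul tr_nonneg (hy 0))
  | succ j ih =>
    have e : vert + hor (j + 1) (trs a b) (dif y) t =
        (vert + hor j (trs a b) (dif y) t) + tr (a (j + 1)) (b (j + 1)) t • (y (j + 1) - y j) := by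
      unfold hor
      rw [Finset.sum_range_succ, ← add_assoc]
      rfl
    rw [e]
    rcases le_or_gt t (a (j + 1)) with h | h
    · rw [tr_zero (hab _) h, zero_smul, add_zero]
      exact ih
    · rw [hor_ge hab hba ((hba j).trans h).le]
      have e2 : y j + tr (a (j + 1)) (b (j + 1)) t • (y (j + 1) - y j) =
          (1 - tr (a (j + 1)) (b (j + 1)) t) • y j + tr (a (j + 1)) (b (j + 1)) t • y (j + 1) := by
        simp only [smul_sub, sub_smul, one_smul]
        abel
      rw [e2]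
      exact cc_add hκ (cc_smul (sub_nonneg.2 tr_le_one) (hy j)) (cc_smul tr_nonneg (hy (j + 1)))

end

/-- The disc on which, up to constants, the height is the linear function `⟨y i, ·⟩` in the `i`-th
slab, and which has no critical points outside of the slabs. -/
theorem multi_lift {φ : ℂ → E4} (h : HalfDisc φ) {κ : ℝ} (hκ : 0 < κ) (k : ℕ) (a b : ℕ → ℝ)
    (y : ℕ → E4) (ha0 : 0 < a 0) (hab : ∀ i, a i < b i) (hba : ∀ i, b i < a (i + 1))
    (hbot : ∀ z ∈ ball (0 : ℂ) 1, φ z 3 ≤ b 0 → SteepAt κ φ z)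
    (hzone : ∀ i ≤ k, ∀ z ∈ ball (0 : ℂ) 1, a i ≤ φ z 3 → φ z 3 ≤ b i → SteepAt κ φ z)
    (hy3 : ∀ i, y i 3 = 1) (hyC : ∀ i, κ * ‖y i‖ < 1)
    (hyn : ∀ i ≤ k, ∀ z ∈ ball (0 : ℂ) 1, (∀ v : ℂ, ⟪y i, d1 φ v z⟫ = 0) →
      kdet φ (y i) z ≠ 0) :
    ∃ ψ : ℂ → E4, HalfDisc ψ ∧ (∀ z ∈ sphere (0 : ℂ) 1, ψ z = φ z) ∧ MorseHt ψ ∧
      (∀ z ∈ ball (0 : ℂ) 1, IsLocalMax (fun w => ψ w 3) z → ∃ i ≤ k, b i < φ z 3 ∧
        (i < k → φ z 3 < a (i + 1)) ∧ CritCap φ (y i) z) ∧
      (∀ z ∈ ball (0 : ℂ) 1, IsLocalMin (fun w => ψ w 3) z → ∃ i ≤ k, b i < φ z 3 ∧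
        (i < k → φ z 3 < a (i + 1)) ∧ CritCap (opp φ) (y i) z) := by
  have hnv : ∀ i, (1 : ℝ) ≤ ‖y i‖ := by
    intro i
    have h1 := abs_real_inner_le_norm vert (y i)
    rw [inner_vert, hy3, norm_vert, one_mul, abs_one] at h1
    exact h1
  have hκ1 : κ ≤ 1 := by
    have h1 := hyC 0
    have h2 := mul_le_mul_of_nonneg_left (hnv 0) hκ.le
    linarith
  have hyCC : ∀ i, y i ∈ CC κ := fun i => by
    show κ * ‖y i‖ ≤ y i 3
    rw [hy3]; exact (hyC i).le
  set g : ℕ → ℝ → ℝ := trs a b with hgdef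
  set D : ℕ → E4 := dif y with hDdef
  have hg : ∀ i, Monotone (g i) := fun i => tr_mono (hab i)
  have hgs : ∀ i, ContDiff ℝ ∞ (g i) := fun i => tr_smooth _ _
  have hD : ∀ i, D i 3 = 0 := by
    intro i
    cases i with
    | zero =>
      show y 0 3 - vert 3 = 0
      rw [hy3, vert_three, sub_self]
    | succ i =>
      show y (i + 1) 3 - y i 3 = 0
      rw [hy3, hy3, sub_self]
  obtain ⟨W, hW, hWsub, hWs⟩ := h.smooth
  obtain ⟨δ, c, hδ, hδ1, hc, hcol⟩ := h.collar
  have hcont : ContinuousOn φ (closedBall 0 1) := hWs.continuousOn.mono hWsub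
  -- the constant `T`
  obtain ⟨T, hT0⟩ : ∃ T : ℝ, ∀ z ∈ closedBall (0 : ℂ) 1, ∀ i ≤ k, 0 < T + ⟪D i, φ z⟫ := by
    obtain ⟨R, hR⟩ := ((isCompact_closedBall (0 : ℂ) 1).image_of_continuousOn hcont).isBounded
      |>.exists_norm_le
    obtain ⟨M, hM⟩ : ∃ M : ℝ, ∀ i ≤ k, ‖D i‖ ≤ M := by
      refine ⟨∑ i ∈ Finset.range (k + 1), ‖D i‖, fun i hi => ?_⟩
      exact Finset.single_le_sum (f := fun i => ‖D i‖) (fun _ _ => norm_nonneg _)
        (Finset.mem_range.2 (by omega))
    refine ⟨M * R + 1, fun z hz i hi => ?_⟩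
    have h1 := abs_real_inner_le_norm (D i) (φ z)
    have h2 : ‖D i‖ * ‖φ z‖ ≤ M * R :=
      mul_le_mul (hM i hi) (hR _ ⟨z, hz, rfl⟩) (norm_nonneg _) ((norm_nonneg _).trans (hM i hi))
    have h3 := (abs_le.1 h1).1
    linarith
  set ψ : ℂ → E4 := fun w => mlift k g T D (φ w) with hψ
  have hψ3 : ∀ z, ψ z 3 = φ z 3 + mG k g T D (φ z) := fun z => mlift_three _
  have hG0 : ∀ z, φ z 3 ≤ a 0 → mG k g T D (φ z) = 0 := by
    intro z hz
    unfold mG
    refine Finset.sum_eq_zero fun i _ => ?_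
    have h1 : φ z 3 ≤ a i := by
      have hm : StrictMono a := strictMono_nat_of_lt_succ fun n => (hab n).trans (hba n)
      exact hz.trans (hm.monotone (Nat.zero_le i))
    have h2 : g i (φ z 3) = 0 := tr_zero (hab i) h1
    rw [h2, zero_mul]
  have hψeq : ∀ z, φ z 3 ≤ a 0 → ψ z = φ z := by
    intro z hz
    show φ z + mG k g T D (φ z) • vert = φ z
    rw [hG0 z hz, zero_smul, add_zero]
  have hsph : ∀ z ∈ sphere (0 : ℂ) 1, ψ z = φ z := fun z hz =>
    hψeq z (by rw [h.bdry z hz]; exact ha0.le)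
  have hGn : ∀ z ∈ closedBall (0 : ℂ) 1, 0 ≤ mG k g T D (φ z) := fun z hz =>
    Finset.sum_nonneg fun i hi => mul_nonneg tr_nonneg
      (hT0 z hz i (by have := Finset.mem_range.1 hi; omega)).le
  refine ⟨ψ, ⟨?_, ?_, ?_, ?_, ?_, ?_⟩, hsph, ?_⟩
  · refine ⟨W, hW, hWsub, ?_⟩
    have e1 : ContDiffOn ℝ ∞ (fun w => φ w 3) W :=
      (EuclideanSpace.proj (3 : Fin 4) : E4 →L[ℝ] ℝ).contDiff.comp_contDiffOn hWs
    have e2 : ∀ i, ContDiffOn ℝ ∞ (fun w => ⟪D i, φ w⟫) W := fun i =>
      (innerSL ℝ (D i)).contDiff.comp_contDiffOn hWs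
    have e3 : ContDiffOn ℝ ∞ (fun w => mG k g T D (φ w)) W :=
      ContDiffOn.sum fun i _ => ((hgs i).comp_contDiffOn e1).mul (contDiffOn_const.add (e2 i))
    exact hWs.add (e3.smul contDiffOn_const)
  · intro x hx x' hx' hab'
    exact h.inj hx hx' (mlift_inj hg hD (hT0 x hx) hab')
  · intro z hz
    exact (mlift_deriv hg hgs hD (h.at hz) (hT0 z hz) (h.imm z hz)).2
  · intro z hz
    rw [hψ3]
    have := hGn z (ball_subset_closedBall hz)
    linarith [h.inside z hz]
  · intro z hz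
    rw [hsph z hz]
    exact h.bdry z hz
  · have hδ' : 0 < min δ (a 0 / c) := lt_min hδ (by positivity)
    refine ⟨min δ (a 0 / c), c, hδ', (min_le_left _ _).trans_lt hδ1, hc, ?_⟩
    intro z h1 h2
    have hz0 : 0 < ‖z‖ := by
      have := min_le_left δ (a 0 / c)
      linarith
    have h3 := hcol z (by have := min_le_left δ (a 0 / c); linarith) h2
    have hs1 : ‖z‖⁻¹ • z ∈ sphere (0 : ℂ) 1 := by
      rw [mem_sphere_zero_iff_norm, norm_smul, norm_inv, norm_norm, inv_mul_cancel₀ hz0.ne']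
    rw [hsph _ hs1, ← h3]
    apply hψeq
    have h4 : φ z 3 = c * (1 - ‖z‖) := by
      have := congrArg (fun w : E4 => w 3) h3
      have e : (φ (‖z‖⁻¹ • z) + (c * (1 - ‖z‖)) • vert) 3 =
        φ (‖z‖⁻¹ • z) 3 + (c * (1 - ‖z‖)) * vert 3 := rfl
      simp only [e, vert_three, h.bdry _ hs1] at this
      linarith
    rw [h4]
    have h5 : 1 - ‖z‖ ≤ a 0 / c := by
      have := min_le_right δ (a 0 / c)
      linarith
    calc c * (1 - ‖z‖) ≤ c * (a 0 / c) := mul_le_mul_of_nonneg_left h5 hc.le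
      _ = a 0 := by field_simp
  · -- critical points of the new height
    have key : ∀ z ∈ ball (0 : ℂ) 1, fderiv ℝ (fun w => ψ w 3) z = 0 →
        ∃ i ≤ k, b i < φ z 3 ∧ (i < k → φ z 3 < a (i + 1)) ∧ (∀ v, ⟪y i, d1 φ v z⟫ = 0) ∧
        ((fun w => ψ w 3) =ᶠ[𝓝 z] fun w => ⟪y i, φ w⟫ + (i + 1) * T) := by
      intro z hz hcr
      have hzc := ball_subset_closedBall hz
      have hsm := h.at hzc
      -- the covector
      have hder := (mlift_deriv hg hgs hD hsm (hT0 z hzc) (h.imm z hzc)).1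
      have hdψ : DifferentiableAt ℝ ψ z := by
        have hs' : ContDiffAt ℝ ∞ ψ z := by
          have e1 : ContDiffAt ℝ ∞ (fun w => φ w 3) z :=
            (EuclideanSpace.proj (3 : Fin 4) : E4 →L[ℝ] ℝ).contDiff.contDiffAt.comp z hsm
          have e2 : ∀ i, ContDiffAt ℝ ∞ (fun w => ⟪D i, φ w⟫) z := fun i =>
            (innerSL ℝ (D i)).contDiff.contDiffAt.comp z hsm
          have e3 : ContDiffAt ℝ ∞ (fun w => mG k g T D (φ w)) z :=
            ContDiffAt.sum fun i _ =>
              ((hgs i).contDiffAt.comp z e1).mul (contDiffAt_const.add (e2 i))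
          exact hsm.add (e3.smul contDiffAt_const)
        exact hs'.differentiableAt (by simp)
      have h3 : ∀ v, fderiv ℝ (fun w => ψ w 3) z v = (fderiv ℝ ψ z v) 3 := by
        intro v
        have e1 : HasFDerivAt (fun w => ψ w 3)
            ((EuclideanSpace.proj (3 : Fin 4) : E4 →L[ℝ] ℝ).comp (fderiv ℝ ψ z)) z :=
          (EuclideanSpace.proj (3 : Fin 4) : E4 →L[ℝ] ℝ).hasFDerivAt.comp z hdψ.hasFDerivAt
        rw [e1.fderiv]
        rfl
      set K := kap k g T D (φ z) with hK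
      have hK0 : 0 ≤ K := kap_nonneg hg (hT0 z hzc)
      set q := hor k g D (φ z 3) with hq
      have hw : ∀ v, ⟪(vert + q) + K • vert, d1 φ v z⟫ = 0 := by
        intro v
        have h4 := h3 v
        rw [hcr] at h4
        have h5 : (fderiv ℝ ψ z v) 3 = (d1 φ v z) 3 + (K * (d1 φ v z) 3 + ⟪q, d1 φ v z⟫) := by
          rw [hder v]
          have e1 : (d1 φ v z + (K * (d1 φ v z) 3 + ⟪q, d1 φ v z⟫) • vert : E4) 3 =
            (d1 φ v z) 3 + (K * (d1 φ v z) 3 + ⟪q, d1 φ v z⟫) * vert 3 := rfl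
          rw [e1, vert_three, mul_one]
        rw [h5] at h4
        rw [inner_add_left, inner_add_left, real_inner_smul_left, inner_vert]
        have h6 : (0 : ℂ →L[ℝ] ℝ) v = 0 := rfl
        rw [h6] at h4
        linarith
      have hcc : (vert + q) + K • vert ∈ CC κ :=
        cc_add hκ.le (hor_cc hκ.le hκ1 hab hba hyCC k (φ z 3)) (cc_smul hK0 (cc_vert hκ1))
      have hne : (vert + q) + K • vert ≠ 0 := by
        intro h0
        have h1 : ((vert + q) + K • vert) 3 = vert 3 + q 3 + K * vert 3 := rfl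
        rw [h0, vert_three, hq, hor_three hD] at h1
        have h2 : (0 : E4) 3 = 0 := rfl
        rw [h2] at h1
        linarith
      have hns : ¬ SteepAt κ φ z := fun hs => absurd (hs.lt hne hw) (not_lt.2 hcc)
      -- the slab of `z`
      have hb0 : b 0 < φ z 3 := by
        by_contra hcon
        exact hns (hbot z hz (not_lt.1 hcon))
      have hslab : ∃ i ≤ k, b i < φ z 3 ∧ (i < k → φ z 3 < a (i + 1)) := by
        classical
        set i := Nat.findGreatest (fun i => b i < φ z 3) k with hi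
        have hik : i ≤ k := Nat.findGreatest_le k
        have hbi : b i < φ z 3 := Nat.findGreatest_spec (P := fun i => b i < φ z 3)
          (Nat.zero_le k) hb0
        refine ⟨i, hik, hbi, fun hlt => ?_⟩
        have h1 : ¬ b (i + 1) < φ z 3 :=
          Nat.findGreatest_is_greatest (P := fun i => b i < φ z 3) (Nat.lt_succ_self i) hlt
        by_contra hcon
        exact hns (hzone (i + 1) hlt z hz (not_lt.1 hcon) (not_lt.1 h1))
      obtain ⟨i, hik, hbi, hai⟩ := hslab
      have hev : (fun w => ψ w 3) =ᶠ[𝓝 z] fun w => ⟪y i, φ w⟫ + (i + 1) * T := by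
        have hc3 : ContinuousAt (fun w => φ w 3) z :=
          ((EuclideanSpace.proj (3 : Fin 4) : E4 →L[ℝ] ℝ).continuous.continuousAt).comp
            hsm.continuousAt
        have e1 : ∀ᶠ w in 𝓝 z, b i < φ w 3 := hc3.eventually (lt_mem_nhds hbi)
        have e2 : ∀ᶠ w in 𝓝 z, i < k → φ w 3 < a (i + 1) := by
          by_cases hlt : i < k
          · filter_upwards [hc3.eventually (gt_mem_nhds (hai hlt))] with w hw _
            exact hw
          · exact Eventually.of_forall fun w h => absurd h hlt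
        filter_upwards [e1, e2] with w hw1 hw2
        rw [hψ3]
        have hsum : mG k g T D (φ w) = ∑ j ∈ Finset.range (i + 1), (T + ⟪D j, φ w⟫) := by
          unfold mG
          rw [← Finset.sum_subset (Finset.range_subset_range.2 (by omega : i + 1 ≤ k + 1))]
          · refine Finset.sum_congr rfl fun j hj => ?_
            have hj' : j ≤ i := by have := Finset.mem_range.1 hj; omega
            have h1 : b j ≤ φ w 3 := by
              rcases hj'.lt_or_eq with h | h
              · exact ((below hab hba h).trans (hab i)).le.trans hw1.le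
              · rw [h]; exact hw1.le
            have h2 : g j (φ w 3) = 1 := tr_one (hab j) h1
            rw [h2, one_mul]
          · intro j hj hj'
            have h1 : i < j := by
              by_contra hcon
              exact hj' (Finset.mem_range.2 (by omega))
            have hjk : j ≤ k := by have := Finset.mem_range.1 hj; omega
            have h2 : φ w 3 ≤ a j := by
              have hm : StrictMono a := strictMono_nat_of_lt_succ fun n => (hab n).trans (hba n)
              exact (hw2 (by omega)).le.trans (hm.monotone h1)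
            have h3 : g j (φ w 3) = 0 := tr_zero (hab j) h2
            rw [h3, zero_mul]
        rw [hsum, Finset.sum_add_distrib, Finset.sum_const, Finset.card_range, ← sum_inner]
        have h4 : ∑ j ∈ Finset.range (i + 1), D j = y i - vert := by
          rw [← sum_dif y i]
          abel
        rw [h4, inner_sub_left, inner_vert, nsmul_eq_mul]
        push_cast
        ring
      refine ⟨i, hik, hbi, hai, fun v => ?_, hev⟩
      rw [← (hess hsm (y i) ((i + 1) * T)).1 v, ← hev.fderiv_eq, hcr]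
      rfl
    refine ⟨?_, ?_, ?_⟩
    · intro z hz hcr u hu
      obtain ⟨i, hik, -, -, h1, h2⟩ := key z hz hcr
      have hsm := h.at (ball_subset_closedBall hz)
      refine nondegE hsm (hyn i hik z hz h1) (fun v => ?_) (u := u)
      rw [← (hess hsm (y i) ((i + 1) * T)).2 u v, ← h2.fderiv.fderiv_eq]
      exact hu v
    · intro z hz1 hz2
      obtain ⟨i, hik, hb, ha, h1, h2⟩ := key z hz1 hz2.fderiv_eq_zero
      have hy0 : 0 < y i 3 := by rw [hy3]; exact one_pos
      refine ⟨i, hik, hb, ha, crit_of_max (h.at (ball_subset_closedBall hz1)) hy0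
        (T := (i + 1) * T) ?_ (hyn i hik z hz1 h1)⟩
      have e1 : ∀ᶠ w in 𝓝 z, ψ w 3 ≤ ψ z 3 := hz2
      have e2 : ψ z 3 = ⟪y i, φ z⟫ + (i + 1) * T := h2.self_of_nhds
      filter_upwards [e1, h2] with w g1 g2
      rw [← g2, ← e2]
      exact g1
    · intro z hz1 hz2
      obtain ⟨i, hik, hb, ha, h1, h2⟩ := key z hz1 hz2.fderiv_eq_zero
      have hy0 : 0 < y i 3 := by rw [hy3]; exact one_pos
      refine ⟨i, hik, hb, ha, crit_of_max (h.at (ball_subset_closedBall hz1)).neg hy0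
        (T := -((i + 1) * T)) ?_ ?_⟩
      · have e1 : ∀ᶠ w in 𝓝 z, ψ z 3 ≤ ψ w 3 := hz2
        have e2 : ψ z 3 = ⟪y i, φ z⟫ + (i + 1) * T := h2.self_of_nhds
        filter_upwards [e1, h2] with w g1 g2
        rw [g2, e2] at g1
        have a1 : ⟪y i, opp φ w⟫ = -⟪y i, φ w⟫ := inner_neg_right _ _
        have a2 : ⟪y i, opp φ z⟫ = -⟪y i, φ z⟫ := inner_neg_right _ _
        show ⟪y i, opp φ w⟫ + -((i + 1) * T) ≤ ⟪y i, opp φ z⟫ + -((i + 1) * T)
        rw [a1, a2]
        linarith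
      · exact (kdet_opp φ (y i) z).symm ▸ hyn i hik z hz1 h1

end Run7.h117.SR
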