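import Mathlib
import Pool.Agent.N15.RC.Fin
import Pool.Agent.Run7.h117.SR.Def
import Pool.Agent.Run7.h117.SR.Area
import Pool.Agent.Run7.h117.SR.MDisc

/-!
Curvature in slabs.
-/

set_option autoImplicit false

namespace Run7.h117.SR

open scoped ContDiff RealInnerProductSpace ENNReal NNReal Topology
open MeasureTheory Set Metric Filter
open Pool.Agent.Y503.RB Pool.Agent.N503.ML Pool.Agent.N15.RC

/-! ### The cone -/

lemma isCone_dir (κ : ℝ) : IsCone (Dir κ) := by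
  refine ⟨?_, fun r hr y => ?_⟩
  · have h3 : Continuous fun y : E4 => y 3 := (EuclideanSpace.proj (3 : Fin 4) : E4 →L[ℝ] ℝ).continuous
    exact (isOpen_lt (continuous_const.mul continuous_norm) h3).measurableSet
  · show κ * ‖r • y‖ < (r • y) 3 ↔ κ * ‖y‖ < y 3
    have h1 : (r • y) 3 = r * y 3 := rfl
    rw [h1, norm_smul, Real.norm_eq_abs, abs_of_pos hr]
    constructor
    · intro h
      have : r * (κ * ‖y‖) < r * y 3 := by linarith
      exact lt_of_mul_lt_mul_left this hr.le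
    · intro h
      have := mul_lt_mul_of_pos_left h hr
      linarith

lemma isOpen_dir (κ : ℝ) : IsOpen (Dir κ) :=
  isOpen_lt (continuous_const.mul continuous_norm)
    (EuclideanSpace.proj (3 : Fin 4) : E4 →L[ℝ] ℝ).continuous

lemma mem_dir_unit {κ : ℝ} {n : E4} (hn : ‖n‖ = 1) : n ∈ Dir κ ↔ κ < n 3 := by
  show κ * ‖n‖ < n 3 ↔ κ < n 3
  rw [hn, mul_one]

lemma norm_cs (L : ℂ →ₗᵢ[ℝ] E4) (θ : ℝ) : ‖L ⟨Real.cos θ, Real.sin θ⟩‖ = 1 := by
  rw [L.norm_map]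
  have h1 : ‖(⟨Real.cos θ, Real.sin θ⟩ : ℂ)‖ ^ 2 = 1 := by
    rw [← Complex.normSq_eq_norm_sq, Complex.normSq_apply]
    have := Real.sin_sq_add_cos_sq θ
    show Real.cos θ * Real.cos θ + Real.sin θ * Real.sin θ = 1
    nlinarith
  have h2 : ‖(⟨Real.cos θ, Real.sin θ⟩ : ℂ)‖ ^ 2 = 1 ^ 2 := by rw [h1, one_pow]
  exact (sq_eq_sq₀ (norm_nonneg _) zero_le_one).1 h2

lemma curvUpp_eq (κ : ℝ) (φ : ℂ → E4) (z : ℂ) : curvUpp κ φ z = curvEC (Dir κ) φ z := by
  unfold curvUpp curvEC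
  refine iSup_congr fun L => iSup_congr fun _ => lintegral_congr fun θ => ?_
  congr 1
  unfold densUpp densEC
  rw [mem_dir_unit (norm_cs L θ)]

lemma curvLow_eq (κ : ℝ) (φ : ℂ → E4) (z : ℂ) : curvLow κ φ z = curvEC (Dir κ) (opp φ) z := by
  unfold curvLow curvEC
  have e : ∀ L : ℂ →ₗᵢ[ℝ] E4, (∀ w v : ℂ, ⟪L w, d1 (opp φ) v z⟫ = 0) ↔
      (∀ w v : ℂ, ⟪L w, d1 φ v z⟫ = 0) := fun L => by
    simp only [d1_opp, inner_neg_right, neg_eq_zero]
  simp only [e]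
  refine iSup_congr fun L => iSup_congr fun _ => lintegral_congr fun θ => ?_
  congr 1
  unfold densLow densEC
  rw [mem_dir_unit (norm_cs L θ), cap_opp, kdet_opp, fffDet_opp]

lemma low_eq (κ : ℝ) (φ : ℂ → E4) (A : Set ℂ) :
    ∫⁻ z in A, curvEC (Dir κ) (opp φ) z = lowIn κ φ A := by
  unfold lowIn
  simp only [curvLow_eq]

lemma upp_eq (κ : ℝ) (φ : ℂ → E4) (A : Set ℂ) :
    ∫⁻ z in A, curvEC (Dir κ) φ z = uppIn κ φ A := by
  unfold uppIn
  simp only [curvUpp_eq]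

lemma vol_dir {κ : ℝ} (hκ : κ < 1) : volume (ball (0 : E4) 1 ∩ Dir κ) ≠ 0 ∧
    volume (ball (0 : E4) 1 ∩ Dir κ) ≠ ⊤ := by
  constructor
  · refine ((isOpen_ball.inter (isOpen_dir κ)).measure_pos volume ⟨(1 / 2 : ℝ) • vert, ?_, ?_⟩).ne'
    · rw [mem_ball_zero_iff, norm_smul, norm_vert]; norm_num
    · show κ * ‖(1 / 2 : ℝ) • vert‖ < ((1 / 2 : ℝ) • vert) 3
      have h1 : ((1 / 2 : ℝ) • vert) 3 = 1 / 2 * vert 3 := rfl
      rw [h1, norm_smul, norm_vert, vert_three]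
      norm_num
      linarith
  · exact ((measure_mono inter_subset_left).trans_lt measure_ball_lt_top).ne

/-! ### A good direction -/

/-- A direction in which the weighted number of the extrema in `A` is at most its mean. -/
theorem mean_dir {φ : ℂ → E4} (hP : IPatch φ (ball 0 1)) {κ : ℝ} (hκ0 : 0 ≤ κ) (hκ : κ < 1)
    {A : Set ℂ} (hA : MeasurableSet A) (hAU : A ⊆ ball 0 1) (a b : ℝ≥0) :
    ∃ y : E4, y 3 = 1 ∧ κ * ‖y‖ < 1 ∧
      (∀ z ∈ ball (0 : ℂ) 1, (∀ v : ℂ, ⟪y, d1 φ v z⟫ = 0) → kdet φ y z ≠ 0) ∧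
      capArea κ *
        (a * (({z : ℂ | z ∈ A ∧ CritCap (opp φ) y z}.encard : ℕ∞) : ℝ≥0∞) +
        b * (({z : ℂ | z ∈ A ∧ CritCap φ y z}.encard : ℕ∞) : ℝ≥0∞)) ≤
      a * lowIn κ φ A + b * uppIn κ φ A := by
  obtain ⟨c, hc1, hc2, hc3, -, -⟩ := counting hP (isCone_dir κ) hA hAU
  obtain ⟨d, hd1, hd2, hd3, -, -⟩ := counting (ipatch_opp hP) (isCone_dir κ) hA hAU
  obtain ⟨Z, hZ, hZ2⟩ := sard hP
  set S : Set E4 := ball (0 : E4) 1 ∩ Dir κ with hS
  have hSm : MeasurableSet S := isOpen_ball.measurableSet.inter (isCone_dir κ).meas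
  obtain ⟨hv0, hvT⟩ := vol_dir hκ
  set μ : Measure E4 := volume.restrict S with hμ
  have hμu : μ univ = volume S := Measure.restrict_apply_univ _
  have hμ0 : μ ≠ 0 := by
    intro h
    have : μ univ = 0 := by rw [h]; rfl
    exact hv0 (hμu ▸ this)
  have : IsFiniteMeasure μ := ⟨by rw [hμu]; exact hvT.lt_top⟩
  have hN : μ (Z ∪ Sᶜ) = 0 := by
    refine measure_union_null ?_ ?_
    · exact nonpos_iff_eq_zero.1 ((Measure.restrict_apply_le _ _).trans hZ.le)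
    · rw [hμ, Measure.restrict_apply hSm.compl, compl_inter_self, measure_empty]
  have hfm : Measurable fun y => (a : ℝ≥0∞) * d y + b * c y :=
    (hd1.const_mul _).add (hc1.const_mul _)
  obtain ⟨y, hyN, hy⟩ := exists_notMem_null_le_laverage hμ0 hfm.aemeasurable hN
  rw [mem_union, not_or, notMem_compl_iff] at hyN
  obtain ⟨hyZ, hyH⟩ := hyN
  have hyd : κ * ‖y‖ < y 3 := hyH.2
  have hy30 : 0 < y 3 := lt_of_le_of_lt (mul_nonneg hκ0 (norm_nonneg y)) hyd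
  have hy3 : 0 < (y 3)⁻¹ := inv_pos.2 hy30
  have hbound : capArea κ * ((a : ℝ≥0∞) * d y + b * c y) ≤ a * lowIn κ φ A + b * uppIn κ φ A := by
    have h1 : ∫⁻ y, ((a : ℝ≥0∞) * d y + b * c y) ∂μ ≤
        ENNReal.ofReal (1 / 4) * (a * lowIn κ φ A + b * uppIn κ φ A) := by
      calc ∫⁻ y, ((a : ℝ≥0∞) * d y + b * c y) ∂μ
          ≤ ∫⁻ y, ((a : ℝ≥0∞) * d y + b * c y) := setLIntegral_le_lintegral _ _
        _ = (a : ℝ≥0∞) * (∫⁻ y, d y) + b * (∫⁻ y, c y) := by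
            rw [lintegral_add_left (hd1.const_mul _), lintegral_const_mul _ hd1,
              lintegral_const_mul _ hc1]
        _ = _ := by
            rw [hd2, hc2, low_eq, upp_eq]
            ring
    have h2 : ⨍⁻ y, ((a : ℝ≥0∞) * d y + b * c y) ∂μ =
        (volume S)⁻¹ * ∫⁻ y, ((a : ℝ≥0∞) * d y + b * c y) ∂μ := by
      rw [laverage_eq, hμu, ENNReal.div_eq_inv_mul]
    rw [h2] at hy
    calc capArea κ * ((a : ℝ≥0∞) * d y + b * c y)
        ≤ capArea κ * ((volume S)⁻¹ *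
          (ENNReal.ofReal (1 / 4) * (a * lowIn κ φ A + b * uppIn κ φ A))) :=
          mul_le_mul_right (hy.trans (mul_le_mul_right h1 _)) _
      _ = (4 * ENNReal.ofReal (1 / 4)) * (volume S * (volume S)⁻¹) *
          (a * lowIn κ φ A + b * uppIn κ φ A) := by
            unfold capArea
            ring
      _ = a * lowIn κ φ A + b * uppIn κ φ A := by
          rw [ENNReal.mul_inv_cancel hv0 hvT]
          have h4 : (4 : ℝ≥0∞) * ENNReal.ofReal (1 / 4) = 1 := by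
            have : (4 : ℝ≥0∞) = ENNReal.ofReal 4 := by simp
            rw [this, ← ENNReal.ofReal_mul (by norm_num)]
            norm_num
          rw [h4, one_mul, one_mul]
  have hcnt : ∀ (χ : ℂ → E4) (e : E4 → ℝ≥0∞), (∀ y ∈ ball (0 : E4) 1, y ∈ Dir κ →
      ∀ s : Finset ℂ, (∀ z ∈ s, z ∈ A ∧ CritCap χ y z) → (s.card : ℝ≥0∞) ≤ e y) →
      (({z : ℂ | z ∈ A ∧ CritCap χ ((y 3)⁻¹ • y) z}.encard : ℕ∞) : ℝ≥0∞) ≤ e y := by
    intro χ e he
    refine encard_le_ennreal fun s hs => he y hyH.1 hyH.2 s fun z hz => ?_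
    exact ⟨(hs z hz).1, (critCap_smul hy3).1 (hs z hz).2⟩
  refine ⟨(y 3)⁻¹ • y, ?_, ?_, ?_, ?_⟩
  · show (y 3)⁻¹ * y 3 = 1
    exact inv_mul_cancel₀ hy30.ne'
  · rw [norm_smul, Real.norm_eq_abs, abs_of_pos hy3]
    calc κ * ((y 3)⁻¹ * ‖y‖) = (y 3)⁻¹ * (κ * ‖y‖) := by ring
      _ < (y 3)⁻¹ * y 3 := mul_lt_mul_of_pos_left hyd hy3
      _ = 1 := inv_mul_cancel₀ hy30.ne'
  · intro z hz hv
    rw [kdet_smul]
    refine mul_ne_zero (by positivity) (hZ2 y hyZ ?_ z hz fun v => ?_)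
    · rintro rfl
      exact lt_irrefl _ hy30
    · have := hv v
      rw [real_inner_smul_left] at this
      exact (mul_eq_zero.1 this).resolve_left hy3.ne'
  · refine le_trans (mul_le_mul_right (add_le_add (mul_le_mul_right (hcnt _ d hd3) _)
      (mul_le_mul_right (hcnt _ c hc3) _)) _) hbound

/-! ### Zones -/

theorem steep_zone {φ : ℂ → E4} (h : HalfDisc φ) {κ c : ℝ} (hc : 0 < c)
    (hs : ∀ z ∈ ball (0 : ℂ) 1, φ z 3 = c → SteepAt κ φ z) :
    ∃ ε : ℝ, 0 < ε ∧ ∀ z ∈ ball (0 : ℂ) 1, |φ z 3 - c| < ε → SteepAt κ φ z := by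
  obtain ⟨W, hW, hWsub, hWs⟩ := h.smooth
  have hcd : ∀ v : ℂ, ContinuousOn (fun z => d1 φ v z) (closedBall 0 1) := by
    intro v
    have h1 : ContinuousOn (fun z => fderiv ℝ φ z) W :=
      hWs.continuousOn_fderiv_of_isOpen hW (by simp)
    exact (h1.clm_apply continuousOn_const).mono hWsub
  have hcont : ContinuousOn φ (closedBall 0 1) := hWs.continuousOn.mono hWsub
  set K : Set (ℂ × E4) := closedBall (0 : ℂ) 1 ×ˢ sphere (0 : E4) 1 with hK
  have hKc : IsCompact K := (isCompact_closedBall _ _).prod (isCompact_sphere _ _)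
  set M : Set (ℂ × E4) := {p | p ∈ K ∧ κ ≤ p.2 3 ∧ ∀ v : ℂ, ⟪p.2, d1 φ v p.1⟫ = 0} with hM
  have h3 : Continuous fun y : E4 => y 3 := (EuclideanSpace.proj (3 : Fin 4) : E4 →L[ℝ] ℝ).continuous
  have hMc : IsCompact M := by
    have e : M = (K ∩ {p | κ ≤ p.2 3}) ∩ ⋂ v : ℂ, (K ∩ (fun p : ℂ × E4 => ⟪p.2, d1 φ v p.1⟫) ⁻¹' {0}) := by
      ext p
      simp only [hM, mem_ofPred_eq, mem_inter_iff, mem_iInter, mem_preimage, mem_singleton_iff]
      constructor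
      · rintro ⟨a, b, c⟩
        exact ⟨⟨a, b⟩, fun v => ⟨a, c v⟩⟩
      · rintro ⟨⟨a, b⟩, c⟩
        exact ⟨a, b, fun v => (c v).2⟩
    rw [e]
    refine (hKc.inter_right (isClosed_le continuous_const (h3.comp continuous_snd))).inter_right ?_
    refine isClosed_iInter fun v => ?_
    refine ContinuousOn.preimage_isClosed_of_isClosed ?_ hKc.isClosed isClosed_singleton
    exact continuousOn_snd.inner ((hcd v).comp continuousOn_fst fun p hp => hp.1)
  rcases M.eq_empty_or_nonempty with hem | hne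
  · refine ⟨1, one_pos, fun z hz _ n hn hno => ?_⟩
    by_contra hcon
    have : (z, n) ∈ M := ⟨⟨ball_subset_closedBall hz, mem_sphere_zero_iff_norm.2 hn⟩,
      not_lt.1 hcon, hno⟩
    rw [hem] at this
    exact this
  · have hf : ContinuousOn (fun p : ℂ × E4 => |φ p.1 3 - c|) M := by
      have e1 : ContinuousOn (fun p : ℂ × E4 => φ p.1 3) M :=
        h3.comp_continuousOn (hcont.comp continuousOn_fst fun p hp => hp.1.1)
      exact (e1.sub continuousOn_const).abs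
    obtain ⟨p, hp, hmin⟩ := hMc.exists_isMinOn hne hf
    refine ⟨|φ p.1 3 - c|, ?_, fun z hz hlt n hn hno => ?_⟩
    · rw [abs_pos, sub_ne_zero]
      obtain ⟨⟨hp1, hp2⟩, hp3, hp4⟩ := hp
      intro heq
      rcases eq_or_lt_of_le (mem_closedBall_zero_iff.1 hp1) with h1 | h1
      · have := h.bdry p.1 (mem_sphere_zero_iff_norm.2 h1)
        rw [this] at heq
        linarith
      · have := hs p.1 (mem_ball_zero_iff.2 h1) heq p.2 (mem_sphere_zero_iff_norm.1 hp2) hp4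
        linarith
    · by_contra hcon
      have hmem : (z, n) ∈ M := ⟨⟨ball_subset_closedBall hz, mem_sphere_zero_iff_norm.2 hn⟩,
        not_lt.1 hcon, hno⟩
      have := hmin hmem
      simp only [mem_ofPred_eq] at this
      linarith

theorem steep_bottom {φ : ℂ → E4} (h : HalfDisc φ) {κ : ℝ} (hκ : 0 < κ) :
    ∃ ε : ℝ, 0 < ε ∧ ∀ z ∈ ball (0 : ℂ) 1, φ z 3 < ε → SteepAt κ φ z := by
  obtain ⟨W, hW, hWsub, hWs⟩ := h.smooth
  obtain ⟨δ, c, hδ, hδ1, hc, hcol⟩ := h.collar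
  have hcont : ContinuousOn φ (closedBall 0 1) := hWs.continuousOn.mono hWsub
  obtain ⟨t₀, ht₀, ht₁⟩ : ∃ t₀ : ℝ, 0 < t₀ ∧ ∀ z : ℂ, ‖z‖ ≤ 1 - δ → t₀ ≤ φ z 3 := by
    have hc1 : ContinuousOn (fun z => φ z 3) (closedBall 0 (1 - δ)) :=
      (EuclideanSpace.proj (3 : Fin 4) : E4 →L[ℝ] ℝ).continuous.comp_continuousOn
        (hcont.mono (closedBall_subset_closedBall (by linarith)))
    obtain ⟨z₁, hz₁, hz₁'⟩ := (isCompact_closedBall (0 : ℂ) (1 - δ)).exists_isMinOn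
      ⟨0, by simp; linarith⟩ hc1
    refine ⟨φ z₁ 3, h.inside z₁ ?_, fun z hz => hz₁' (mem_closedBall_zero_iff.2 hz)⟩
    have := mem_closedBall_zero_iff.1 hz₁
    exact mem_ball_zero_iff.2 (by linarith)
  refine ⟨t₀, ht₀, fun z hz hlt n hn hno => ?_⟩
  have hcl : 1 - δ < ‖z‖ := by
    by_contra hcon
    have := ht₁ z (not_lt.1 hcon)
    linarith
  have hz1 := mem_ball_zero_iff.1 hz
  have hz0 : 0 < ‖z‖ := by linarith
  have h1 := collar_deriv h hδ1 hcol hcl hz1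
  have h2 := hno z
  rw [h1, real_inner_smul_right, real_inner_comm, inner_vert] at h2
  have h3 : n 3 = 0 := by
    rcases mul_eq_zero.1 h2 with h4 | h4
    · have : 0 < c * ‖z‖ := by positivity
      linarith
    · exact h4
  rw [h3]
  exact hκ

lemma measurable_slab {φ : ℂ → E4} (h : HalfDisc φ) (c : ℕ → ℝ) (k i : ℕ) :
    MeasurableSet (Slab φ c k i) := by
  obtain ⟨W, hW, hWsub, hWs⟩ := h.smooth
  have hcont : ContinuousOn (fun z => φ z 3) (ball 0 1) :=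
    (EuclideanSpace.proj (3 : Fin 4) : E4 →L[ℝ] ℝ).continuous.comp_continuousOn
      (hWs.continuousOn.mono (ball_subset_closedBall.trans hWsub))
  have h1 : IsOpen (ball (0 : ℂ) 1 ∩ (fun z => φ z 3) ⁻¹' Ioi (c i)) :=
    hcont.isOpen_inter_preimage isOpen_ball isOpen_Ioi
  have h2 : IsOpen (ball (0 : ℂ) 1 ∩ (fun z => φ z 3) ⁻¹' Iio (c (i + 1))) :=
    hcont.isOpen_inter_preimage isOpen_ball isOpen_Iio
  by_cases hik : i < k
  · have e : Slab φ c k i = (ball (0 : ℂ) 1 ∩ (fun z => φ z 3) ⁻¹' Ioi (c i)) ∩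
        (ball (0 : ℂ) 1 ∩ (fun z => φ z 3) ⁻¹' Iio (c (i + 1))) := by
      ext z
      simp only [Slab, mem_ofPred_eq, mem_inter_iff, mem_preimage, mem_Ioi, mem_Iio]
      tauto
    rw [e]
    exact (h1.inter h2).measurableSet
  · have e : Slab φ c k i = ball (0 : ℂ) 1 ∩ (fun z => φ z 3) ⁻¹' Ioi (c i) := by
      ext z
      simp only [Slab, mem_ofPred_eq, mem_inter_iff, mem_preimage, mem_Ioi]
      tauto
    rw [e]
    exact h1.measurableSet

end Run7.h117.SR
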