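import Mathlib
import Pool.Agent.Run7.h117.SR.Slab

/-!
The main theorem on the curvature in slabs.
-/

set_option autoImplicit false

namespace Run7.h117.SR

open scoped ContDiff RealInnerProductSpace ENNReal NNReal Topology
open MeasureTheory Set Metric Filter
open Pool.Agent.Y503.RB Pool.Agent.N503.ML Pool.Agent.N15.RC

lemma exists_small (k : ℕ) (f : ℕ → ℝ) (hf : ∀ i ≤ k, 0 < f i) :
    ∃ e : ℝ, 0 < e ∧ ∀ i ≤ k, e < f i := by
  induction k with
  | zero =>
    refine ⟨f 0 / 2, half_pos (hf 0 le_rfl), fun i hi => ?_⟩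
    have : i = 0 := by omega
    rw [this]
    exact half_lt_self (hf 0 le_rfl)
  | succ k ih =>
    obtain ⟨e, he, h⟩ := ih fun i hi => hf i (by omega)
    refine ⟨min e (f (k + 1) / 2), lt_min he (half_pos (hf _ le_rfl)), fun i hi => ?_⟩
    rcases Nat.lt_or_ge i (k + 1) with h1 | h1
    · exact (min_le_left _ _).trans_lt (h i (by omega))
    · have : i = k + 1 := by omega
      rw [this]
      exact (min_le_right _ _).trans_lt (half_lt_self (hf _ le_rfl))

lemma Levels.mono {c : ℕ → ℝ} {k : ℕ} (h : Levels c k) {i j : ℕ} (hij : i ≤ j) (hj : j ≤ k) :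
    c i ≤ c j := by
  induction j with
  | zero =>
    have : i = 0 := by omega
    rw [this]
  | succ j ih =>
    rcases Nat.lt_or_ge i (j + 1) with h1 | h1
    · exact (ih (by omega) (by omega)).trans (h.lt j (by omega)).le
    · have : i = j + 1 := by omega
      rw [this]

lemma Levels.pos {c : ℕ → ℝ} {k : ℕ} (h : Levels c k) {i : ℕ} (h1 : 1 ≤ i) (hi : i ≤ k) :
    0 < c i := by
  have h2 := h.lt 0 (by omega)
  rw [h.zero] at h2
  exact h2.trans_le (h.mono h1 hi)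

lemma slab_disjoint {φ : ℂ → E4} {c : ℕ → ℝ} {k : ℕ} (h : Levels c k) {i j : ℕ} (hi : i ≤ k)
    (hj : j ≤ k) {z : ℂ} (h1 : z ∈ Slab φ c k i) (h2 : z ∈ Slab φ c k j) : i = j := by
  rcases lt_trichotomy i j with hlt | heq | hlt
  · exfalso
    have h3 := h1.2.2 (by omega)
    have h4 := h.mono (show i + 1 ≤ j by omega) hj
    linarith [h2.2.1]
  · exact heq
  · exfalso
    have h3 := h2.2.2 (by omega)
    have h4 := h.mono (show j + 1 ≤ i by omega) hi
    linarith [h1.2.1]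

theorem slabs {φ : ℂ → E4} (h : HalfDisc φ) {κ : ℝ} (hκ0 : 0 < κ) (hκ : κ < 1) (k : ℕ)
    (c : ℕ → ℝ) (hc : Levels c k)
    (hs : ∀ i, 1 ≤ i → i ≤ k → ∀ z ∈ ball (0 : ℂ) 1, φ z 3 = c i → SteepAt κ φ z)
    (a b : ℕ → ℝ≥0) :
    ∃ ψ : ℂ → E4, HalfDisc ψ ∧ (∀ z ∈ sphere (0 : ℂ) 1, ψ z = φ z) ∧ MorseHt ψ ∧
      (∀ z ∈ ball (0 : ℂ) 1, IsLocalExtr (fun w => ψ w 3) z → ∃ i ≤ k, z ∈ Slab φ c k i) ∧
      ∀ i ≤ k, capArea κ * (a i * (minIn ψ (Slab φ c k i) : ℝ≥0∞) +
        b i * (maxIn ψ (Slab φ c k i) : ℝ≥0∞)) ≤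
          a i * lowIn κ φ (Slab φ c k i) + b i * uppIn κ φ (Slab φ c k i) := by
  classical
  -- levels for all indices
  set c' : ℕ → ℝ := fun i => if i ≤ k then c i else c k + ((i : ℝ) - k) with hc'def
  have hc'k : ∀ i ≤ k, c' i = c i := fun i hi => if_pos hi
  have hgap : ∀ i, k ≤ i → c' (i + 1) - c' i = 1 := by
    intro i hi
    have h1 : c' (i + 1) = c k + (((i + 1 : ℕ) : ℝ) - k) := if_neg (by omega)
    rcases hi.lt_or_eq with h2 | h2
    · have h3 : c' i = c k + ((i : ℝ) - k) := if_neg (by omega)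
      rw [h1, h3]; push_cast; ring
    · have h3 : c' i = c k := by rw [← h2]; exact if_pos le_rfl
      rw [h1, h3, ← h2]; push_cast; ring
  -- zones
  obtain ⟨εb, hεb, hbot⟩ := steep_bottom h hκ0
  have hz : ∀ i, ∃ ε : ℝ, 0 < ε ∧ (1 ≤ i → i ≤ k → ∀ z ∈ ball (0 : ℂ) 1, |φ z 3 - c i| < ε →
      SteepAt κ φ z) := by
    intro i
    by_cases hi : 1 ≤ i ∧ i ≤ k
    · obtain ⟨ε, h1, h2⟩ := steep_zone h (hc.pos hi.1 hi.2) (hs i hi.1 hi.2)
      exact ⟨ε, h1, fun _ _ => h2⟩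
    · exact ⟨1, one_pos, fun h1 h2 => absurd ⟨h1, h2⟩ hi⟩
  choose ε hε hεz using hz
  obtain ⟨e, he, hesm⟩ := exists_small k
    (fun i => min (min (ε i) εb) (min ((c' (i + 1) - c' i) / 2) (1 / 2))) (by
      intro i hi
      refine lt_min (lt_min (hε i) hεb) (lt_min ?_ (by norm_num))
      rcases hi.lt_or_eq with h1 | h1
      · rw [hc'k i hi, hc'k (i + 1) h1]
        have := hc.lt i h1
        linarith
      · rw [hgap i h1.ge]; norm_num)
  have he1 : ∀ i ≤ k, e < ε i := fun i hi =>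
    (hesm i hi).trans_le ((min_le_left _ _).trans (min_le_left _ _))
  have he2 : e < εb := (hesm 0 (Nat.zero_le k)).trans_le ((min_le_left _ _).trans (min_le_right _ _))
  have he3 : ∀ i, 2 * e < c' (i + 1) - c' i := by
    intro i
    rcases Nat.lt_or_ge i k with h1 | h1
    · have := (hesm i h1.le).trans_le ((min_le_right _ _).trans (min_le_left _ _))
      linarith
    · rw [hgap i h1]
      have := (hesm 0 (Nat.zero_le k)).trans_le ((min_le_right _ _).trans (min_le_right _ _))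
      linarith
  set a' : ℕ → ℝ := fun i => if i = 0 then e / 2 else c' i - e with ha'
  set b' : ℕ → ℝ := fun i => if i = 0 then e else c' i + e with hb'
  have hab : ∀ i, a' i < b' i := by
    intro i
    simp only [ha', hb']
    split_ifs with h0
    · linarith
    · linarith
  have hba : ∀ i, b' i < a' (i + 1) := by
    intro i
    have h1 : a' (i + 1) = c' (i + 1) - e := if_neg (by omega)
    rw [h1]
    have h3 := he3 i
    by_cases h0 : i = 0
    · have h2 : b' i = e := if_pos h0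
      have h4 : c' i = 0 := by rw [h0, hc'k 0 (Nat.zero_le k)]; exact hc.zero
      rw [h2]
      linarith
    · have h2 : b' i = c' i + e := if_neg h0
      rw [h2]
      linarith
  -- directions
  have hY := fun i => mean_dir h.patch hκ0.le hκ (measurable_slab h c k i)
    (fun z (hz : z ∈ Slab φ c k i) => hz.1) (a i) (b i)
  choose y hy3 hyC hyn hyb using hY
  have ha0 : 0 < a' 0 := by
    have h1 : a' 0 = e / 2 := if_pos rfl
    rw [h1]; linarith
  have hb0 : b' 0 = e := if_pos rfl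
  obtain ⟨ψ, h1, h2, h3, h4, h5⟩ := multi_lift h hκ0 k a' b' y ha0 hab hba
    (fun z hz hle => hbot z hz (by rw [hb0] at hle; linarith))
    (fun i hi z hz hle1 hle2 => by
      by_cases h0 : i = 0
      · have e2 : b' i = e := if_pos h0
        rw [e2] at hle2
        exact hbot z hz (by linarith)
      · have e1 : a' i = c' i - e := if_neg h0
        have e2 : b' i = c' i + e := if_neg h0
        rw [e1, hc'k i hi] at hle1
        rw [e2, hc'k i hi] at hle2
        refine hεz i (by omega) hi z hz ?_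
        rw [abs_lt]
        have := he1 i hi
        constructor <;> linarith)
    hy3 hyC (fun i _ => hyn i)
  have hin : ∀ z ∈ ball (0 : ℂ) 1, ∀ i ≤ k, b' i < φ z 3 → (i < k → φ z 3 < a' (i + 1)) →
      z ∈ Slab φ c k i := by
    intro z hz i hi hb ha
    refine ⟨hz, ?_, fun hlt => ?_⟩
    · by_cases h0 : i = 0
      · have e2 : b' i = e := if_pos h0
        rw [e2] at hb
        rw [h0, hc.zero]
        linarith
      · have e2 : b' i = c' i + e := if_neg h0
        rw [e2, hc'k i hi] at hb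
        linarith
    · have e1 : a' (i + 1) = c' (i + 1) - e := if_neg (by omega)
      have := ha hlt
      rw [e1, hc'k (i + 1) hlt] at this
      linarith
  refine ⟨ψ, h1, h2, h3, ?_, ?_⟩
  · intro z hz hex
    rcases hex with hmin | hmax
    · obtain ⟨i, hi, g1, g2, -⟩ := h5 z hz hmin
      exact ⟨i, hi, hin z hz i hi g1 g2⟩
    · obtain ⟨i, hi, g1, g2, -⟩ := h4 z hz hmax
      exact ⟨i, hi, hin z hz i hi g1 g2⟩
  · intro i hi
    refine le_trans (mul_le_mul_right (add_le_add (mul_le_mul_right ?_ _)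
      (mul_le_mul_right ?_ _)) _) (hyb i)
    · have h6 : minIn ψ (Slab φ c k i) ≤
          {z : ℂ | z ∈ Slab φ c k i ∧ CritCap (opp φ) (y i) z}.encard := by
        refine Set.encard_le_encard fun z hz => ⟨hz.1, ?_⟩
        obtain ⟨j, hj, g1, g2, g3⟩ := h5 z hz.1.1 hz.2
        have : i = j := slab_disjoint hc hi hj hz.1 (hin z hz.1.1 j hj g1 g2)
        rw [this]
        exact g3
      exact_mod_cast h6
    · have h6 : maxIn ψ (Slab φ c k i) ≤
          {z : ℂ | z ∈ Slab φ c k i ∧ CritCap φ (y i) z}.encard := by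
        refine Set.encard_le_encard fun z hz => ⟨hz.1, ?_⟩
        obtain ⟨j, hj, g1, g2, g3⟩ := h4 z hz.1.1 hz.2
        have : i = j := slab_disjoint hc hi hj hz.1 (hin z hz.1.1 j hj g1 g2)
        rw [this]
        exact g3
      exact_mod_cast h6

lemma capArea_pos {κ : ℝ} (hκ : κ < 1) : capArea κ ≠ 0 ∧ capArea κ ≠ ⊤ := by
  obtain ⟨h1, h2⟩ := vol_dir hκ
  unfold capArea
  exact ⟨mul_ne_zero (by norm_num) h1, ENNReal.mul_ne_top (by norm_num) h2⟩

lemma enat_le_of_lt {v : ℝ≥0∞} (_ : v ≠ 0) (_ : v ≠ ⊤) {N : ℕ∞} {m : ℕ} {x : ℝ≥0∞}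
    (h1 : v * (N : ℝ≥0∞) ≤ x) (h2 : x < v * (m + 1)) : N ≤ m := by
  have h4 : v * (N : ℝ≥0∞) < v * ((m + 1 : ℕ) : ℝ≥0∞) := by
    refine (h1.trans_lt h2).trans_eq ?_
    push_cast
    rfl
  have h5 : (N : ℝ≥0∞) < ((m + 1 : ℕ) : ℝ≥0∞) := by
    by_contra hc
    push Not at hc
    exact absurd (mul_le_mul_right hc v) (not_le.2 h4)
  have h6 : N < ((m + 1 : ℕ) : ℕ∞) := by exact_mod_cast h5
  have h7 : N < (m : ℕ∞) + 1 := by simpa using h6
  exact Order.lt_add_one_iff_of_not_isMax (by simp) |>.1 h7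

/-- Small lower curvature in every slab. -/
theorem few_min {φ : ℂ → E4} (h : HalfDisc φ) {κ : ℝ} (hκ0 : 0 < κ) (hκ : κ < 1) (k : ℕ)
    (c : ℕ → ℝ) (hc : Levels c k)
    (hs : ∀ i, 1 ≤ i → i ≤ k → ∀ z ∈ ball (0 : ℂ) 1, φ z 3 = c i → SteepAt κ φ z)
    (m : ℕ → ℕ) (hm : ∀ i ≤ k, lowIn κ φ (Slab φ c k i) < capArea κ * (m i + 1)) :
    ∃ ψ : ℂ → E4, HalfDisc ψ ∧ (∀ z ∈ sphere (0 : ℂ) 1, ψ z = φ z) ∧ MorseHt ψ ∧
      nmin ψ ≤ ((∑ i ∈ Finset.range (k + 1), m i : ℕ) : ℕ∞) := by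
  obtain ⟨ψ, h1, h2, h3, h4, h5⟩ := slabs h hκ0 hκ k c hc hs (fun _ => 1) (fun _ => 0)
  obtain ⟨v1, v2⟩ := capArea_pos hκ
  refine ⟨ψ, h1, h2, h3, ?_⟩
  have h6 : ∀ i ≤ k, minIn ψ (Slab φ c k i) ≤ m i := by
    intro i hi
    have h7 := h5 i hi
    simp only [ENNReal.coe_one, ENNReal.coe_zero, one_mul, zero_mul, add_zero] at h7
    exact enat_le_of_lt v1 v2 h7 (hm i hi)
  have hsub : {z : ℂ | z ∈ ball (0 : ℂ) 1 ∧ IsLocalMin (fun w => ψ w 3) z} ⊆
      ⋃ i ∈ Finset.range (k + 1), {z : ℂ | z ∈ Slab φ c k i ∧ IsLocalMin (fun w => ψ w 3) z} := by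
    intro z hz
    obtain ⟨i, hi, hzi⟩ := h4 z hz.1 (Or.inl hz.2)
    exact mem_iUnion₂.2 ⟨i, Finset.mem_range.2 (by omega), hzi, hz.2⟩
  have hun : ∀ t : Finset ℕ, (⋃ i ∈ t, {z : ℂ | z ∈ Slab φ c k i ∧
      IsLocalMin (fun w => ψ w 3) z}).encard ≤ ∑ i ∈ t, minIn ψ (Slab φ c k i) := by
    intro t
    classical
    induction t using Finset.induction_on with
    | empty => simp
    | insert i s his ih =>
      rw [Finset.set_biUnion_insert, Finset.sum_insert his]
      exact (Set.encard_union_le _ _).trans (add_le_add le_rfl ih)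
  refine (Set.encard_le_encard hsub).trans ((hun _).trans ?_)
  rw [Nat.cast_sum]
  exact Finset.sum_le_sum fun i hi => h6 i (by have := Finset.mem_range.1 hi; omega)

end Run7.h117.SR
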