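import Mathlib
import Pool.Agent.Run7.h117.SR.Slab

/-!
Discs for which the heights of the critical points are distinct.
-/

set_option autoImplicit false

namespace Run7.h117.SR

open scoped ContDiff RealInnerProductSpace ENNReal NNReal Topology
open MeasureTheory Set Metric Filter
open Pool.Agent.Y503.RB Pool.Agent.N503.ML Pool.Agent.N15.RC

/-- The critical points of the height in the open disc. -/
def Crit (φ : ℂ → E4) : Set ℂ := {z | z ∈ ball (0 : ℂ) 1 ∧ fderiv ℝ (fun w => φ w 3) z = 0}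

/-- smoothness of the height -/
lemma ht_at {φ : ℂ → E4} (h : HalfDisc φ) {z : ℂ} (hz : z ∈ closedBall (0 : ℂ) 1) :
    ContDiffAt ℝ ∞ (fun w => φ w 3) z :=
  (EuclideanSpace.proj (3 : Fin 4) : E4 →L[ℝ] ℝ).contDiff.contDiffAt.comp z (h.at hz)

lemma ht_deriv {φ : ℂ → E4} {z : ℂ} (hd : DifferentiableAt ℝ φ z) (v : ℂ) :
    fderiv ℝ (fun w => φ w 3) z v = (d1 φ v z) 3 := by
  have e1 : HasFDerivAt (fun w => φ w 3)
      ((EuclideanSpace.proj (3 : Fin 4) : E4 →L[ℝ] ℝ).comp (fderiv ℝ φ z)) z :=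
    (EuclideanSpace.proj (3 : Fin 4) : E4 →L[ℝ] ℝ).hasFDerivAt.comp z hd.hasFDerivAt
  rw [e1.fderiv]
  rfl

/-- no critical points in the collar -/
lemma collar_ht {φ : ℂ → E4} (h : HalfDisc φ) {δ c : ℝ} (hδ1 : δ < 1)
    (hcol : ∀ z : ℂ, 1 - δ ≤ ‖z‖ → ‖z‖ ≤ 1 → φ z = φ (‖z‖⁻¹ • z) + (c * (1 - ‖z‖)) • vert)
    {z : ℂ} (h1 : 1 - δ < ‖z‖) (h2 : ‖z‖ < 1) :
    fderiv ℝ (fun w => φ w 3) z z = -(c * ‖z‖) := by
  rw [ht_deriv ((h.at (mem_closedBall_zero_iff.2 h2.le)).differentiableAt (by simp)),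
    collar_deriv h hδ1 hcol h1 h2]
  show -(c * ‖z‖) * vert 3 = _
  rw [vert_three, mul_one]

lemma crit_sub {φ : ℂ → E4} (h : HalfDisc φ) {δ c : ℝ} (hδ1 : δ < 1) (hc : 0 < c)
    (hcol : ∀ z : ℂ, 1 - δ ≤ ‖z‖ → ‖z‖ ≤ 1 → φ z = φ (‖z‖⁻¹ • z) + (c * (1 - ‖z‖)) • vert) :
    Crit φ ⊆ closedBall 0 (1 - δ) := by
  intro z hz
  by_contra hcon
  rw [mem_closedBall_zero_iff, not_le] at hcon
  have h1 := collar_ht h hδ1 hcol hcon (mem_ball_zero_iff.1 hz.1)
  rw [hz.2] at h1
  have h0 : 0 < ‖z‖ := by linarith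
  have : 0 < c * ‖z‖ := by positivity
  have h3 : (0 : ℂ →L[ℝ] ℝ) z = 0 := rfl
  rw [h3] at h1
  linarith

theorem crit_finite {φ : ℂ → E4} (h : HalfDisc φ) (hM : MorseHt φ) : (Crit φ).Finite := by
  obtain ⟨δ, c, hδ, hδ1, hc, hcol⟩ := h.collar
  by_contra hinf
  obtain ⟨x, hxK, hx⟩ := Set.Infinite.exists_accPt_of_subset_isCompact hinf
    (isCompact_closedBall _ _) (crit_sub h hδ1 hc hcol)
  rw [accPt_iff_frequently] at hx
  have hxb : x ∈ ball (0 : ℂ) 1 := by
    have := mem_closedBall_zero_iff.1 hxK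
    exact mem_ball_zero_iff.2 (by linarith)
  have hsm := ht_at h (ball_subset_closedBall hxb)
  have hcd : ContDiffAt ℝ ∞ (fderiv ℝ (fun w => φ w 3)) x := hsm.fderiv_right (by norm_cast)
  have hx0 : fderiv ℝ (fun w => φ w 3) x = 0 := by
    by_contra hne
    have h1 := hcd.continuousAt.eventually_ne hne
    exact hx (h1.mono fun y hy hc => hy hc.2.2)
  obtain ⟨L, hL⟩ : ∃ L, L = fderiv ℝ (fderiv ℝ (fun w => φ w 3)) x := ⟨_, rfl⟩
  have hinj : LinearMap.ker (L : ℂ →ₗ[ℝ] (ℂ →L[ℝ] ℝ)) = ⊥ := by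
    rw [LinearMap.ker_eq_bot']
    intro u hu
    refine hM x hxb hx0 u fun v => ?_
    have : L u = 0 := hu
    rw [← hL, this]; rfl
  obtain ⟨K, -, hK⟩ := LinearMap.exists_antilipschitzWith (L : ℂ →ₗ[ℝ] (ℂ →L[ℝ] ℝ)) hinj
  have hd : HasFDerivAt (fderiv ℝ (fun w => φ w 3)) L x := by
    rw [hL]
    exact (hcd.differentiableAt (by simp)).hasFDerivAt
  have h2 := hd.eventually_ne (c := 0) ⟨K, hK⟩
  rw [eventually_nhdsWithin_iff] at h2
  exact hx (h2.mono fun y hy hc => hy hc.1 hc.2.2)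

/-- A smooth function which is constant near finitely many points, with given values. -/
theorem exists_const_near (w : E4 → ℝ) (hw : ∀ p, 0 ≤ w p) (P : Finset E4) :
    (∀ p ∈ P, 0 < p 3) →
    ∃ (g : E4 → ℝ) (t : ℝ), 0 < t ∧ ContDiff ℝ ∞ g ∧ HasCompactSupport g ∧ (∀ x, 0 ≤ g x) ∧
      (∀ x : E4, x 3 ≤ t → g x = 0) ∧ ∀ p ∈ P, ∀ᶠ x in 𝓝 p, g x = w p := by
  classical
  induction P using Finset.induction_on with
  | empty =>
    intro _
    exact ⟨fun _ => 0, 1, one_pos, contDiff_const, HasCompactSupport.zero, fun _ => le_rfl,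
      fun _ _ => rfl, fun p hp => absurd hp (Finset.notMem_empty p)⟩
  | insert p P hpP ih =>
    intro hpos
    obtain ⟨g, t, ht, hg, hgc, hg0, hgt, hgP⟩ := ih fun q hq => hpos q (Finset.mem_insert_of_mem hq)
    have hp3 := hpos p (Finset.mem_insert_self p P)
    obtain ⟨ε, hε, hεP⟩ := Metric.isOpen_iff.1 P.finite_toSet.isClosed.isOpen_compl p
      (by simpa using hpP)
    set r : ℝ := min (ε / 2) (p 3 / 2) with hr
    have hr0 : 0 < r := lt_min (by positivity) (by positivity)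
    let f : ContDiffBump p := ⟨r / 2, r, by positivity, by linarith⟩
    refine ⟨fun x => g x + f x * (w p - g x), min t (p 3 / 2), lt_min ht (by positivity), ?_, ?_,
      ?_, ?_, ?_⟩
    · exact hg.add (f.contDiff.mul (contDiff_const.sub hg))
    · exact hgc.add (f.hasCompactSupport.mul_right)
    · intro x
      have h1 : 0 ≤ f x := f.nonneg
      have h2 : f x ≤ 1 := f.le_one
      have h3 := hg0 x
      have h4 := hw p
      nlinarith [mul_nonneg h1 h4, mul_nonneg (sub_nonneg.2 h2) h3]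
    · intro x hx
      have h1 : g x = 0 := hgt x (hx.trans (min_le_left _ _))
      have h2 : f x = 0 := by
        apply f.zero_of_le_dist
        show r ≤ dist x p
        have h3 := abs_real_inner_le_norm vert (x - p)
        rw [inner_vert, norm_vert, one_mul, ← dist_eq_norm] at h3
        have h4 : (x - p) 3 = x 3 - p 3 := rfl
        rw [h4] at h3
        have h5 := hx.trans (min_le_right _ _)
        have h6 : r ≤ p 3 / 2 := min_le_right _ _
        have h7 : p 3 - x 3 ≤ |x 3 - p 3| := by rw [abs_sub_comm]; exact le_abs_self _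
        linarith
      show g x + f x * (w p - g x) = 0
      rw [h1, h2]; ring
    · intro q hq
      rcases Finset.mem_insert.1 hq with rfl | hq
      · have h1 : ∀ᶠ x in 𝓝 q, f x = 1 := f.eventuallyEq_one
        filter_upwards [h1] with x hx
        rw [hx]; ring
      · have h1 : ∀ᶠ x in 𝓝 q, f x = 0 := by
          have h2 : r < dist q p := by
            have h3 : ε ≤ dist q p := by
              by_contra hcon
              exact hεP (mem_ball.2 (not_le.1 hcon)) (by simpa using hq)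
            have : r ≤ ε / 2 := min_le_left _ _
            linarith
          have h3 : ∀ᶠ x in 𝓝 q, r < dist x p :=
            (continuous_id.dist continuous_const).continuousAt.eventually (lt_mem_nhds h2)
          filter_upwards [h3] with x hx
          exact f.zero_of_le_dist hx.le
        filter_upwards [h1, hgP q hq] with x hx hx2
        rw [hx, hx2]; ring

/-- The critical points can be moved to distinct heights. -/
theorem distinct {φ : ℂ → E4} (h : HalfDisc φ) (hM : MorseHt φ) :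
    ∃ ψ : ℂ → E4, HalfDisc ψ ∧ (∀ z ∈ sphere (0 : ℂ) 1, ψ z = φ z) ∧ MorseHt ψ ∧
      (Crit ψ).Finite ∧ InjOn (fun z => ψ z 3) (Crit ψ) ∧
      (∀ z ∈ ball (0 : ℂ) 1, IsLocalMin (fun w => ψ w 3) z → IsLocalMin (fun w => φ w 3) z) ∧
      (∀ z ∈ ball (0 : ℂ) 1, IsLocalMax (fun w => ψ w 3) z → IsLocalMax (fun w => φ w 3) z) := by
  classical
  obtain ⟨W, hW, hWsub, hWs⟩ := h.smooth
  obtain ⟨δ, c, hδ, hδ1, hc, hcol⟩ := h.collar
  have hfin := crit_finite h hM
  set P : Finset E4 := hfin.toFinset.image φ with hP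
  obtain ⟨f, hf⟩ := (Set.countable_iff_exists_injOn).1 (P.countable_toSet)
  set w : E4 → ℝ := fun p => (f p : ℝ) with hwdef
  have hwinj : ∀ p ∈ P, ∀ q ∈ P, w p = w q → p = q := fun p hp q hq hpq =>
    hf hp hq (Nat.cast_injective (R := ℝ) hpq)
  obtain ⟨g, t, ht, hgs, hgc, hg0, hgt, hgP⟩ := exists_const_near w (fun p => Nat.cast_nonneg _) P
    (by
      intro p hp
      obtain ⟨z, hz, rfl⟩ := Finset.mem_image.1 hp
      exact h.inside z (hfin.mem_toFinset.1 hz).1)
  obtain ⟨C, hC⟩ := ContDiff.lipschitzWith_of_hasCompactSupport hgc hgs (by simp)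
  have hgd : ∀ x : E4, DifferentiableAt ℝ g x := fun x => (hgs.differentiable (by simp)) x
  have hgn : ∀ x : E4, ‖fderiv ℝ g x‖ ≤ C := fun x => norm_fderiv_le_of_lipschitz ℝ hC
  have hmemP : ∀ z ∈ Crit φ, φ z ∈ P := fun z hz =>
    Finset.mem_image_of_mem φ (hfin.mem_toFinset.2 hz)
  -- the open set where `g ∘ φ` is locally constant
  set U : Set ℂ := {z | ∀ᶠ x in 𝓝 z, g (φ x) = g (φ z)} with hU
  have hUo : IsOpen U := by
    rw [isOpen_iff_mem_nhds]
    intro z hz
    have h1 : ∀ᶠ x in 𝓝 z, g (φ x) = g (φ z) := hz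
    filter_upwards [h1.eventually_nhds, h1] with x hx hx2
    show ∀ᶠ x' in 𝓝 x, g (φ x') = g (φ x)
    rw [hx2]
    exact hx
  have hcritU : ∀ z ∈ Crit φ, (∀ᶠ x in 𝓝 z, g (φ x) = w (φ z)) ∧ z ∈ U := by
    intro z hz
    have h1 := (h.at (ball_subset_closedBall hz.1)).continuousAt.eventually (hgP _ (hmemP z hz))
    refine ⟨h1, ?_⟩
    show ∀ᶠ x in 𝓝 z, g (φ x) = g (φ z)
    rw [h1.self_of_nhds]
    exact h1
  have hcub : closedBall (0 : ℂ) (1 - δ) ⊆ closedBall 0 1 :=
    closedBall_subset_closedBall (by linarith)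
  have hcD : ContinuousOn (fun z => fderiv ℝ φ z) (closedBall 0 1) :=
    (hWs.continuousOn_fderiv_of_isOpen hW (by simp)).mono hWsub
  obtain ⟨M, hM1⟩ := (isCompact_closedBall (0 : ℂ) 1).exists_bound_of_continuousOn hcD
  have hcDh : ContinuousOn (fun z => fderiv ℝ (fun w => φ w 3) z) (closedBall 0 1) := by
    have e1 : ContDiffOn ℝ ∞ (fun w => φ w 3) W :=
      (EuclideanSpace.proj (3 : Fin 4) : E4 →L[ℝ] ℝ).contDiff.comp_contDiffOn hWs
    exact (e1.continuousOn_fderiv_of_isOpen hW (by simp)).mono hWsub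
  obtain ⟨η, hη, hη1⟩ : ∃ η : ℝ, 0 < η ∧ ∀ z ∈ closedBall (0 : ℂ) (1 - δ) \ U,
      η ≤ ‖fderiv ℝ (fun w => φ w 3) z‖ := by
    have hK : IsCompact (closedBall (0 : ℂ) (1 - δ) \ U) := (isCompact_closedBall _ _).diff hUo
    rcases (closedBall (0 : ℂ) (1 - δ) \ U).eq_empty_or_nonempty with he | hne
    · exact ⟨1, one_pos, fun z hz => by rw [he] at hz; exact absurd hz (notMem_empty z)⟩
    · obtain ⟨x, hx, hmin⟩ := hK.exists_isMinOn hne
        ((hcDh.norm).mono (sdiff_subset.trans hcub))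
      refine ⟨‖fderiv ℝ (fun w => φ w 3) x‖, ?_, fun z hz => hmin hz⟩
      rw [norm_pos_iff]
      intro h0
      have hxb : x ∈ ball (0 : ℂ) 1 := by
        have := mem_closedBall_zero_iff.1 hx.1
        exact mem_ball_zero_iff.2 (by linarith)
      exact hx.2 (hcritU x ⟨hxb, h0⟩).2
  -- choice of `s`
  have hs1 : ∀ᶠ s : ℝ in 𝓝[>] 0, s * C < 1 := by
    have : Tendsto (fun s : ℝ => s * C) (𝓝 0) (𝓝 (0 * C)) :=
      (continuous_id.mul continuous_const).tendsto 0
    rw [zero_mul] at this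
    exact (this.eventually (gt_mem_nhds one_pos)).filter_mono nhdsWithin_le_nhds
  have hs2 : ∀ᶠ s : ℝ in 𝓝[>] 0, s * (C * M) < η := by
    have : Tendsto (fun s : ℝ => s * (C * M)) (𝓝 0) (𝓝 (0 * (C * M))) :=
      (continuous_id.mul continuous_const).tendsto 0
    rw [zero_mul] at this
    exact (this.eventually (gt_mem_nhds hη)).filter_mono nhdsWithin_le_nhds
  have hs3 : ∀ᶠ s : ℝ in 𝓝[>] 0, ∀ z ∈ Crit φ, ∀ z' ∈ Crit φ,
      φ z 3 + s * w (φ z) = φ z' 3 + s * w (φ z') → z = z' := by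
    rw [eventually_all_finite hfin]
    intro z hz
    rw [eventually_all_finite hfin]
    intro z' hz'
    by_cases hzz : z = z'
    · exact Eventually.of_forall fun _ _ => hzz
    by_cases hh : φ z 3 = φ z' 3
    · have hne : w (φ z) ≠ w (φ z') := fun hc => hzz (h.inj (ball_subset_closedBall hz.1)
        (ball_subset_closedBall hz'.1) (hwinj _ (hmemP z hz) _ (hmemP z' hz') hc))
      filter_upwards [self_mem_nhdsWithin] with s hs hc
      rw [hh] at hc
      exact absurd (mul_left_cancel₀ (ne_of_gt hs) (add_left_cancel hc)) hne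
    · have h1 : Tendsto (fun s : ℝ => (φ z 3 + s * w (φ z)) - (φ z' 3 + s * w (φ z'))) (𝓝 0)
          (𝓝 ((φ z 3 + 0 * w (φ z)) - (φ z' 3 + 0 * w (φ z')))) := by
        apply Continuous.tendsto
        fun_prop
      have h2 : (φ z 3 + 0 * w (φ z)) - (φ z' 3 + 0 * w (φ z')) ≠ 0 := by
        rw [zero_mul, zero_mul, add_zero, add_zero]
        exact sub_ne_zero.2 hh
      filter_upwards [(h1.eventually_ne h2).filter_mono nhdsWithin_le_nhds] with s hs hc
      exact absurd (sub_eq_zero.2 hc) hs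
  obtain ⟨s, ⟨⟨hsC, hsM⟩, hsI⟩, hs0⟩ :=
    (((hs1.and hs2).and hs3).and self_mem_nhdsWithin).exists
  have hs0 : 0 < s := hs0
  set ψ : ℂ → E4 := fun z => φ z + (s * g (φ z)) • vert with hψ
  have hψ3 : ∀ z, ψ z 3 = φ z 3 + s * g (φ z) := by
    intro z
    show φ z 3 + (s * g (φ z)) * vert 3 = _
    rw [vert_three, mul_one]
  have hψeq : ∀ z, φ z 3 ≤ t → ψ z = φ z := by
    intro z hz
    show φ z + (s * g (φ z)) • vert = φ z
    rw [hgt _ hz, mul_zero, zero_smul, add_zero]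
  have hsph : ∀ z ∈ sphere (0 : ℂ) 1, ψ z = φ z := fun z hz =>
    hψeq z (by rw [h.bdry z hz]; exact ht.le)
  have hder : ∀ z ∈ closedBall (0 : ℂ) 1, ∀ v : ℂ, HasFDerivAt (fun x => g (φ x))
      ((fderiv ℝ g (φ z)).comp (fderiv ℝ φ z)) z := fun z hz v =>
    (hgd (φ z)).hasFDerivAt.comp z ((h.at hz).differentiableAt (by simp)).hasFDerivAt
  have hH : HalfDisc ψ := by
    refine ⟨?_, ?_, ?_, ?_, ?_, ?_⟩
    · exact ⟨W, hW, hWsub, hWs.add ((contDiffOn_const.mul (hgs.comp_contDiffOn hWs)).smul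
        contDiffOn_const)⟩
    · intro a ha b hb hab
      apply h.inj ha hb
      have h1 : φ a - φ b = (s * (g (φ b) - g (φ a))) • vert := by
        have h2 : φ a + (s * g (φ a)) • vert = φ b + (s * g (φ b)) • vert := hab
        rw [mul_sub, sub_smul, sub_eq_sub_iff_add_eq_add, h2, add_comm]
      have h2 : ‖φ a - φ b‖ ≤ s * C * ‖φ a - φ b‖ := by
        calc ‖φ a - φ b‖ = s * |g (φ b) - g (φ a)| := by
              conv_lhs => rw [h1]
              rw [norm_smul, norm_vert, mul_one, Real.norm_eq_abs, abs_mul, abs_of_pos hs0]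
          _ ≤ s * (C * ‖φ a - φ b‖) := by
              apply mul_le_mul_of_nonneg_left _ hs0.le
              have h3 := hC.dist_le_mul (φ b) (φ a)
              rw [Real.dist_eq, dist_comm, dist_eq_norm] at h3
              exact h3
          _ = s * C * ‖φ a - φ b‖ := by ring
      have h3 : ‖φ a - φ b‖ = 0 := by
        have := norm_nonneg (φ a - φ b)
        nlinarith
      exact sub_eq_zero.1 (norm_eq_zero.1 h3)
    · intro z hz
      have e1 : HasFDerivAt ψ (fderiv ℝ φ z + ((s • ((fderiv ℝ g (φ z)).comp (fderiv ℝ φ z))).smulRight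
          vert)) z := by
        have e2 := ((hder z hz 0).const_mul s).smul_const vert
        exact ((h.at hz).differentiableAt (by simp)).hasFDerivAt.add e2
      rw [e1.fderiv, injective_iff_map_eq_zero]
      intro v hv
      have h1 : fderiv ℝ φ z v = -((s * fderiv ℝ g (φ z) (fderiv ℝ φ z v)) • vert) := by
        have : fderiv ℝ φ z v + (s * fderiv ℝ g (φ z) (fderiv ℝ φ z v)) • vert = 0 := hv
        exact eq_neg_of_add_eq_zero_left this
      have h2 : ‖fderiv ℝ φ z v‖ ≤ s * C * ‖fderiv ℝ φ z v‖ := by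
        calc ‖fderiv ℝ φ z v‖ = s * |fderiv ℝ g (φ z) (fderiv ℝ φ z v)| := by
              conv_lhs => rw [h1]
              rw [norm_neg, norm_smul, norm_vert, mul_one, Real.norm_eq_abs, abs_mul,
                abs_of_pos hs0]
          _ ≤ s * (C * ‖fderiv ℝ φ z v‖) := by
              apply mul_le_mul_of_nonneg_left _ hs0.le
              exact (fderiv ℝ g (φ z)).le_of_opNorm_le (hgn _) _
          _ = _ := by ring
      have h3 : ‖fderiv ℝ φ z v‖ = 0 := by
        have := norm_nonneg (fderiv ℝ φ z v)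
        nlinarith
      have h4 : fderiv ℝ φ z v = fderiv ℝ φ z 0 := by
        rw [norm_eq_zero.1 h3, map_zero]
      exact h.imm z hz h4
    · intro z hz
      rw [hψ3]
      have := mul_nonneg hs0.le (hg0 (φ z))
      linarith [h.inside z hz]
    · intro z hz
      rw [hsph z hz]
      exact h.bdry z hz
    · have hδ' : 0 < min δ (t / c) := lt_min hδ (by positivity)
      refine ⟨min δ (t / c), c, hδ', (min_le_left _ _).trans_lt hδ1, hc, ?_⟩
      intro z h1 h2
      have hz0 : 0 < ‖z‖ := by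
        have := min_le_left δ (t / c)
        linarith
      have h3 := hcol z (by have := min_le_left δ (t / c); linarith) h2
      have hs1 : ‖z‖⁻¹ • z ∈ sphere (0 : ℂ) 1 := by
        rw [mem_sphere_zero_iff_norm, norm_smul, norm_inv, norm_norm, inv_mul_cancel₀ hz0.ne']
      rw [hsph _ hs1, ← h3]
      apply hψeq
      have h4 : φ z 3 = c * (1 - ‖z‖) := by
        have := congrArg (fun w : E4 => w 3) h3
        have e : (φ (‖z‖⁻¹ • z) + (c * (1 - ‖z‖)) • vert) 3 =
          φ (‖z‖⁻¹ • z) 3 + (c * (1 - ‖z‖)) * vert 3 := rfl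
        simp only [e, vert_three, h.bdry _ hs1] at this
        linarith
      rw [h4]
      have h5 : 1 - ‖z‖ ≤ t / c := by
        have := min_le_right δ (t / c)
        linarith
      calc c * (1 - ‖z‖) ≤ c * (t / c) := mul_le_mul_of_nonneg_left h5 hc.le
        _ = t := by field_simp
  -- critical points of the new height
  have hψd : ∀ z ∈ closedBall (0 : ℂ) 1, fderiv ℝ (fun w => ψ w 3) z =
      fderiv ℝ (fun w => φ w 3) z + s • ((fderiv ℝ g (φ z)).comp (fderiv ℝ φ z)) := by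
    intro z hz
    have e1 : (fun w => ψ w 3) = fun w => φ w 3 + s * g (φ w) := funext hψ3
    rw [e1]
    exact (((ht_at h hz).differentiableAt (by simp)).hasFDerivAt.add
      ((hder z hz 0).const_mul s)).fderiv
  have hsubC : Crit ψ ⊆ Crit φ := by
    rintro z ⟨hz, hcr⟩
    have hzc := ball_subset_closedBall hz
    rw [hψd z hzc] at hcr
    by_cases hcl : 1 - δ < ‖z‖
    · exfalso
      have hz1 := mem_ball_zero_iff.1 hz
      have h0 : 0 < ‖z‖ := by linarith
      have h1 := congrArg (fun L : ℂ →L[ℝ] ℝ => L z) hcr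
      have h2 : (fderiv ℝ (fun w => φ w 3) z + s • ((fderiv ℝ g (φ z)).comp (fderiv ℝ φ z))) z =
        fderiv ℝ (fun w => φ w 3) z z + s * fderiv ℝ g (φ z) (d1 φ z z) := rfl
      simp only [h2] at h1
      rw [collar_ht h hδ1 hcol hcl hz1, collar_deriv h hδ1 hcol hcl hz1, map_smul] at h1
      have h3 : |fderiv ℝ g (φ z) vert| ≤ C := by
        have := (fderiv ℝ g (φ z)).le_of_opNorm_le (hgn _) vert
        rwa [norm_vert, mul_one] at this
      have h4 : -(c * ‖z‖) * (1 + s * fderiv ℝ g (φ z) vert) = 0 := by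
        have h5 : (0 : ℂ →L[ℝ] ℝ) z = 0 := rfl
        rw [h5, smul_eq_mul] at h1
        linarith
      have h5 : 0 < 1 + s * fderiv ℝ g (φ z) vert := by
        have h6 := neg_abs_le (fderiv ℝ g (φ z) vert)
        have h7 := mul_le_mul_of_nonneg_left h3 hs0.le
        have h8 := mul_le_mul_of_nonneg_left h6 hs0.le
        linarith
      have h6 : 0 < c * ‖z‖ := by positivity
      rcases mul_eq_zero.1 h4 with h7 | h7
      · linarith
      · linarith
    · have hzK : z ∈ closedBall (0 : ℂ) (1 - δ) := mem_closedBall_zero_iff.2 (not_lt.1 hcl)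
      by_cases hzU : z ∈ U
      · refine ⟨hz, ?_⟩
        have h1 : (fderiv ℝ g (φ z)).comp (fderiv ℝ φ z) = 0 := by
          rw [← (hder z hzc 0).fderiv]
          have h2 : (fun x => g (φ x)) =ᶠ[𝓝 z] fun _ => g (φ z) := hzU
          rw [h2.fderiv_eq, fderiv_const_apply]
        rw [h1, smul_zero, add_zero] at hcr
        exact hcr
      · exfalso
        have h1 := hη1 z ⟨hzK, hzU⟩
        rw [eq_neg_of_add_eq_zero_left hcr, norm_neg, norm_smul, Real.norm_eq_abs,
          abs_of_pos hs0] at h1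
        have h2 : ‖(fderiv ℝ g (φ z)).comp (fderiv ℝ φ z)‖ ≤ C * M := by
          refine (ContinuousLinearMap.opNorm_comp_le _ _).trans ?_
          exact mul_le_mul (hgn _) (hM1 z hzc) (norm_nonneg _) C.coe_nonneg
        have h3 := mul_le_mul_of_nonneg_left h2 hs0.le
        linarith
  have hev : ∀ z ∈ Crit φ, (fun w => ψ w 3) =ᶠ[𝓝 z] fun x => φ x 3 + s * w (φ z) := by
    intro z hz
    filter_upwards [(hcritU z hz).1] with x hx
    rw [hψ3, hx]
  have hval : ∀ z ∈ Crit φ, ψ z 3 = φ z 3 + s * w (φ z) := fun z hz => (hev z hz).self_of_nhds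
  refine ⟨ψ, hH, hsph, ?_, hfin.subset hsubC, ?_, ?_, ?_⟩
  · intro z hz hcr u hu
    have hzC := hsubC ⟨hz, hcr⟩
    refine hM z hz hzC.2 u fun v => ?_
    have h1 : fderiv ℝ (fun w => ψ w 3) =ᶠ[𝓝 z] fderiv ℝ (fun w => φ w 3) := by
      filter_upwards [(hev z hzC).eventually_nhds] with x hx
      have hx' : (fun w => ψ w 3) =ᶠ[𝓝 x] fun x => φ x 3 + s * w (φ z) := hx
      rw [hx'.fderiv_eq, fderiv_add_const]
    rw [← h1.fderiv_eq]
    exact hu v
  · intro z hz z' hz' hzz
    have hzz' : ψ z 3 = ψ z' 3 := hzz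
    rw [hval z (hsubC hz), hval z' (hsubC hz')] at hzz'
    exact hsI z (hsubC hz) z' (hsubC hz') hzz'
  · intro z hz hmin
    have hzC := hsubC ⟨hz, hmin.fderiv_eq_zero⟩
    have h1 : ∀ᶠ x in 𝓝 z, ψ z 3 ≤ ψ x 3 := hmin
    filter_upwards [h1, hev z hzC] with x hx hx2
    rw [hx2, hval z hzC] at hx
    linarith
  · intro z hz hmax
    have hzC := hsubC ⟨hz, hmax.fderiv_eq_zero⟩
    have h1 : ∀ᶠ x in 𝓝 z, ψ x 3 ≤ ψ z 3 := hmax
    filter_upwards [h1, hev z hzC] with x hx hx2
    rw [hx2, hval z hzC] at hx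
    linarith

end Run7.h117.SR
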