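import Mathlib
import Pool.Agent.Run7.h117.SR.Main
import Pool.Agent.Run7.h117.SR.Dist

/-!
Stretched discs and the curvature of their slabs.
-/

set_option autoImplicit false

namespace Run7.h117.SR

open scoped ContDiff RealInnerProductSpace ENNReal NNReal Topology
open MeasureTheory Set Metric Filter
open Pool.Agent.Y503.RB Pool.Agent.N503.ML Pool.Agent.N15.RC

/-- Directions close to the vertical one: critical points in a part of the disc. -/
theorem near_cl {φ : ℂ → E4} (h : Srf φ) (hM : MorseHt φ) (A : Set ℂ) (hA : A ⊆ ball 0 1) :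
    ∃ ε > 0, ∀ p : E4, ‖p - vert‖ < ε → ∀ s : Finset ℂ,
      (∀ z ∈ s, z ∈ A ∧ CritCap φ p z) →
      (s.card : ℕ∞) ≤ {z : ℂ | (z ∈ ball (0 : ℂ) 1 ∧ z ∈ closure A) ∧
        IsLocalMax (fun w => φ w 3) z}.encard := by
  classical
  obtain ⟨δ, c, hδ, hδ1, hc, hcol⟩ := h.collar
  have hloc : ∀ z₀ : ℂ, ∃ ε > 0, z₀ ∈ ball (0 : ℂ) 1 →
      (∀ z ∈ ball z₀ ε, z ∈ A → z₀ ∈ closure A) ∧ ∀ p : E4, ‖p - vert‖ < ε →
      (∀ z ∈ ball z₀ ε, ∀ z' ∈ ball z₀ ε, CritCap φ p z → CritCap φ p z' → z = z') ∧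
      (¬ IsLocalMax (fun w => φ w 3) z₀ → ∀ z ∈ ball z₀ ε, ¬ CritCap φ p z) := by
    intro z₀
    by_cases hz₀ : z₀ ∈ ball (0 : ℂ) 1
    · obtain ⟨ε, hε, hb⟩ := local_count h hM hz₀
      by_cases hcl : z₀ ∈ closure A
      · exact ⟨ε, hε, fun _ => ⟨fun _ _ _ => hcl, hb⟩⟩
      · obtain ⟨ε', hε', hsub⟩ := Metric.isOpen_iff.1 isClosed_closure.isOpen_compl z₀ hcl
        refine ⟨min ε ε', lt_min hε hε', fun _ => ⟨fun z hz hzA => ?_, fun p hp => ⟨?_, ?_⟩⟩⟩
        · exact absurd (subset_closure hzA) (hsub (ball_subset_ball (min_le_right _ _) hz))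
        · intro z hz z' hz'
          exact (hb p (hp.trans_le (min_le_left _ _))).1 z
            (ball_subset_ball (min_le_left _ _) hz) z' (ball_subset_ball (min_le_left _ _) hz')
        · intro hn z hz
          exact (hb p (hp.trans_le (min_le_left _ _))).2 hn z
            (ball_subset_ball (min_le_left _ _) hz)
    · exact ⟨1, one_pos, fun h => absurd h hz₀⟩
  choose r hr hrb using hloc
  obtain ⟨t, ht1, ht2⟩ := (isCompact_closedBall (0 : ℂ) (1 - δ)).elim_nhds_subcover
    (fun z => ball z (r z)) (fun z _ => ball_mem_nhds z (hr z))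
  obtain ⟨ε, hε, hεt⟩ := exists_min t r hr
  refine ⟨ε, hε, fun p hp s hs => ?_⟩
  have hin : ∀ z ∈ s, ∃ z₀ ∈ t, z ∈ ball z₀ (r z₀) := by
    intro z hz
    obtain ⟨hz1, hz2⟩ := hs z hz
    have hzn : ‖z‖ ≤ 1 - δ := by
      by_contra hcon
      push Not at hcon
      have h1 := hcol z hcon (mem_ball_zero_iff.1 (hA hz1))
      have h2 := hz2.1 z
      rw [h1, real_inner_smul_right, real_inner_comm, inner_vert] at h2
      have hz0 : 0 < ‖z‖ := by linarith
      have h3 : c * ‖z‖ * p 3 ≠ 0 := mul_ne_zero (mul_ne_zero hc hz0.ne') hz2.2.1.ne'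
      exact h3 h2
    have := ht2 (mem_closedBall_zero_iff.2 hzn)
    simpa using this
  choose! f hf1 hf2 using hin
  have hball : ∀ z ∈ s, f z ∈ ball (0 : ℂ) 1 := fun z hz => by
    have := mem_closedBall_zero_iff.1 (ht1 _ (hf1 z hz))
    exact mem_ball_zero_iff.2 (by linarith)
  have hpr : ∀ z ∈ s, ‖p - vert‖ < r (f z) := fun z hz => hp.trans_le (hεt _ (hf1 z hz))
  have hinj : InjOn f (s : Set ℂ) := by
    intro a ha b hb hab
    have h1 := ((hrb (f a) (hball a ha)).2 p (hpr a ha)).1 a (hf2 a ha) b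
      (by rw [hab]; exact hf2 b hb) (hs a ha).2 (hs b hb).2
    exact h1
  have hsub : ((s.image f : Finset ℂ) : Set ℂ) ⊆
      {z : ℂ | (z ∈ ball (0 : ℂ) 1 ∧ z ∈ closure A) ∧ IsLocalMax (fun w => φ w 3) z} := by
    intro w hw
    obtain ⟨z, hz, rfl⟩ := Finset.mem_image.1 (Finset.mem_coe.1 hw)
    refine ⟨⟨hball z hz, (hrb (f z) (hball z hz)).1 z (hf2 z hz) (hs z hz).1⟩, ?_⟩
    by_contra hnm
    exact ((hrb (f z) (hball z hz)).2 p (hpr z hz)).2 hnm z (hf2 z hz) (hs z hz).2
  have h1 := Set.encard_le_encard hsub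
  rw [Set.encard_coe_eq_coe_finsetCard, Finset.card_image_of_injOn hinj] at h1
  exact h1

/-- Vertical stretching makes a compact part without critical points steep. -/
theorem steep_lam {φ : ℂ → E4} (h : HalfDisc φ) {κ : ℝ} (hκ : 0 < κ) {S : Set ℂ}
    (hS : IsCompact S) (hSb : S ⊆ closedBall 0 1)
    (hreg : ∀ z ∈ S, fderiv ℝ (fun w => φ w 3) z ≠ 0) :
    ∃ l₀ : ℝ, 0 < l₀ ∧ ∀ l ≥ l₀, ∀ z ∈ S, SteepAt κ (fun w => lam l (φ w)) z := by
  obtain ⟨W, hW, hWsub, hWs⟩ := h.smooth
  have hcD : ContinuousOn (fun z => fderiv ℝ φ z) (closedBall 0 1) :=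
    (hWs.continuousOn_fderiv_of_isOpen hW (by simp)).mono hWsub
  obtain ⟨M, hM1⟩ := (isCompact_closedBall (0 : ℂ) 1).exists_bound_of_continuousOn hcD
  have hM0 : 0 ≤ M := (norm_nonneg _).trans (hM1 0 (by simp))
  have hcDh : ContinuousOn (fun z => fderiv ℝ (fun w => φ w 3) z) (closedBall 0 1) := by
    have e1 : ContDiffOn ℝ ∞ (fun w => φ w 3) W :=
      (EuclideanSpace.proj (3 : Fin 4) : E4 →L[ℝ] ℝ).contDiff.comp_contDiffOn hWs
    exact (e1.continuousOn_fderiv_of_isOpen hW (by simp)).mono hWsub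
  obtain ⟨η, hη, hη1⟩ : ∃ η : ℝ, 0 < η ∧ ∀ z ∈ S, η ≤ ‖fderiv ℝ (fun w => φ w 3) z‖ := by
    rcases S.eq_empty_or_nonempty with he | hne
    · exact ⟨1, one_pos, fun z hz => by rw [he] at hz; exact absurd hz (notMem_empty z)⟩
    · obtain ⟨x, hx, hmin⟩ := hS.exists_isMinOn hne (hcDh.norm.mono hSb)
      exact ⟨‖fderiv ℝ (fun w => φ w 3) x‖, norm_pos_iff.2 (hreg x hx), fun z hz => hmin hz⟩
  refine ⟨M / (κ * η) + 2, by positivity, fun l hl z hz n hn hno => ?_⟩
  have hzc := hSb hz
  have hd : DifferentiableAt ℝ φ z := (h.at hzc).differentiableAt (by simp)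
  have hl1 : 0 < l - 1 := by
    have : 0 ≤ M / (κ * η) := by positivity
    linarith
  by_contra hcon
  push Not at hcon
  have h1 : ∀ v : ℂ, ‖((n 3 * (l - 1)) • fderiv ℝ (fun w => φ w 3) z) v‖ ≤ M * ‖v‖ := by
    intro v
    have h2 := hno v
    rw [d1_lam hd, lam_apply, inner_add_right, real_inner_smul_right, real_inner_comm vert n,
      inner_vert] at h2
    have h3 : ((n 3 * (l - 1)) • fderiv ℝ (fun w => φ w 3) z) v = -⟪n, d1 φ v z⟫ := by
      show (n 3 * (l - 1)) * fderiv ℝ (fun w => φ w 3) z v = _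
      rw [ht_deriv hd]
      linarith
    rw [h3, norm_neg, Real.norm_eq_abs]
    refine (abs_real_inner_le_norm _ _).trans ?_
    rw [hn, one_mul]
    exact (fderiv ℝ φ z).le_of_opNorm_le (hM1 z hzc) v
  have h2 := ContinuousLinearMap.opNorm_le_bound _ hM0 h1
  have h3 : κ * (l - 1) * η ≤ M := by
    refine le_trans ?_ h2
    rw [norm_smul, Real.norm_eq_abs]
    have h4 : κ * (l - 1) ≤ |n 3 * (l - 1)| :=
      (mul_le_mul_of_nonneg_right hcon hl1.le).trans (le_abs_self _)
    exact mul_le_mul h4 (hη1 z hz) hη.le (abs_nonneg _)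
  have h4 : M < κ * (l - 1) * η := by
    have h5 : M / (κ * η) < l - 1 := by linarith
    rw [div_lt_iff₀ (by positivity)] at h5
    linarith
  linarith

/-- The curvature of a part of a stretched disc. -/
theorem upp_lam {φ : ℂ → E4} (h : Srf φ) {κ : ℝ} (hκ : 0 < κ) {A : Set ℂ}
    (hA : MeasurableSet A) (hAU : A ⊆ ball 0 1) {ε : ℝ} (_ : 0 < ε) {m : ℕ∞}
    (hone : ∀ p : E4, ‖p - vert‖ < ε → ∀ s : Finset ℂ,
      (∀ z ∈ s, z ∈ A ∧ CritCap φ p z) → (s.card : ℕ∞) ≤ m)
    {l : ℝ} (hl0 : 0 < l) (hl : 1 < l * (κ * ε)) :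
    ∫⁻ z in A, curvEC (Dir κ) (fun w => lam l (φ w)) z ≤ capArea κ * (m : ℝ≥0∞) := by
  have hL := ipatch_lam h.patch hl0
  obtain ⟨c, hc1, hc2, -, hc4, hc5⟩ := counting hL (isCone_dir κ) hA hAU
  set S : Set E4 := ball (0 : E4) 1 ∩ Dir κ with hS
  have hSm : MeasurableSet S := isOpen_ball.measurableSet.inter (isCone_dir κ).meas
  have hbound : ∀ y, c y ≤ S.indicator (fun _ => (m : ℝ≥0∞)) y := by
    intro y
    by_cases hy0 : c y = 0
    · rw [hy0]; exact bot_le
    obtain ⟨hyb, hyC⟩ := hc5 y hy0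
    rw [indicator_of_mem (show y ∈ S from ⟨hyb, hyC⟩)]
    have hyC' : κ * ‖y‖ < y 3 := hyC
    have hy3 : 0 < y 3 := lt_of_le_of_lt (by positivity) hyC'
    have hl3 : 0 < l * y 3 := mul_pos hl0 hy3
    refine hc4 y _ fun s hs => ?_
    have h1 : ‖(l * y 3)⁻¹ • lam l y - vert‖ < ε := by
      have e : (l * y 3)⁻¹ • lam l y - vert = (l * y 3)⁻¹ • (y - (y 3) • vert) := by
        rw [lam_apply, smul_add, smul_sub, smul_smul, smul_smul]
        have : (l * y 3)⁻¹ * ((l - 1) * y 3) = 1 - (l * y 3)⁻¹ * y 3 := by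
          field_simp
        rw [this, sub_smul, one_smul]
        abel
      rw [e, norm_smul, Real.norm_eq_abs, abs_of_pos (inv_pos.2 hl3), inv_mul_lt_iff₀ hl3]
      have h2 : ‖y - (y 3) • vert‖ ≤ ‖y‖ := by
        have e : ⟪y - (y 3) • vert, (y 3) • vert⟫ = 0 := by
          rw [inner_sub_left, real_inner_smul_right, real_inner_smul_right,
            real_inner_smul_left, real_inner_self_eq_norm_sq, norm_vert, real_inner_comm,
            inner_vert]
          ring
        have e2 := norm_add_sq_eq_norm_sq_add_norm_sq_of_inner_eq_zero _ _ e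
        rw [sub_add_cancel] at e2
        have e3 := norm_nonneg (y - (y 3) • vert)
        have e4 := norm_nonneg y
        have e5 := norm_nonneg ((y 3) • vert)
        by_contra hcon
        push Not at hcon
        nlinarith
      have h3 : ‖y‖ < y 3 / κ := by
        rw [lt_div_iff₀ hκ]; linarith
      have h4 : y 3 / κ < l * y 3 * ε := by
        rw [div_lt_iff₀ hκ]
        have := mul_lt_mul_of_pos_left hl hy3
        linarith
      linarith
    have h2 := hone _ h1 s fun z hz => ⟨(hs z hz).1, by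
      rw [critCap_smul (inv_pos.2 hl3)]
      exact (critCap_lam (h.at (ball_subset_closedBall (hAU (hs z hz).1))) hl0 y).1 (hs z hz).2⟩
    exact_mod_cast h2
  have h1 : ENNReal.ofReal (1 / 4) * ∫⁻ z in A, curvEC (Dir κ) (fun w => lam l (φ w)) z ≤
      m * volume S := by
    rw [← hc2]
    calc ∫⁻ y, c y ≤ ∫⁻ y, S.indicator (fun _ => (m : ℝ≥0∞)) y := lintegral_mono hbound
      _ = _ := by rw [lintegral_indicator hSm, setLIntegral_const]
  have h4 : (4 : ℝ≥0∞) * ENNReal.ofReal (1 / 4) = 1 := by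
    have : (4 : ℝ≥0∞) = ENNReal.ofReal 4 := by simp
    rw [this, ← ENNReal.ofReal_mul (by norm_num)]
    norm_num
  calc ∫⁻ z in A, curvEC (Dir κ) (fun w => lam l (φ w)) z
      = 4 * (ENNReal.ofReal (1 / 4) * ∫⁻ z in A, curvEC (Dir κ) (fun w => lam l (φ w)) z) := by
        rw [← mul_assoc, h4, one_mul]
    _ ≤ 4 * (m * volume S) := mul_le_mul_right h1 _
    _ = capArea κ * m := by
        unfold capArea
        rw [← hS]
        ring

/-- Levels which separate the elements of a finite set of positive numbers. -/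
theorem exists_levels (V : Finset ℝ) : ∀ L : ℝ, 0 < L → (∀ v ∈ V, 0 < v ∧ v < L) →
    ∃ (k : ℕ) (c : ℕ → ℝ), Levels c k ∧ c k < L ∧ (∀ i ≤ k, c i ∉ V) ∧
      (∀ i ≤ k, ∀ v ∈ V, ∀ v' ∈ V, c i ≤ v → c i ≤ v' → (i < k → v ≤ c (i + 1)) →
        (i < k → v' ≤ c (i + 1)) → v = v') := by
  classical
  induction V using Finset.induction_on_max with
  | empty =>
    intro L hL _
    exact ⟨0, fun _ => 0, ⟨rfl, fun i hi => absurd hi (Nat.not_lt_zero i)⟩, hL, by simp,
      by simp⟩
  | insert a V hV ih =>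
    intro L hL hVL
    have ha := hVL a (Finset.mem_insert_self a V)
    obtain ⟨k, c, hc, hcL, hcV, hcu⟩ := ih a ha.1 fun v hv =>
      ⟨(hVL v (Finset.mem_insert_of_mem hv)).1, hV v hv⟩
    obtain ⟨x, hx1, hx2, hx3⟩ : ∃ x, c k < x ∧ x < a ∧ ∀ v ∈ V, v < x := by
      have hne : (insert (c k) V).Nonempty := Finset.insert_nonempty _ _
      set m := (insert (c k) V).max' hne with hm
      have hma : m < a := by
        rw [hm, Finset.max'_lt_iff]
        intro y hy
        rcases Finset.mem_insert.1 hy with rfl | hy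
        · exact hcL
        · exact hV y hy
      refine ⟨(m + a) / 2, ?_, by linarith, fun v hv => ?_⟩
      · have := Finset.le_max' (insert (c k) V) (c k) (Finset.mem_insert_self _ _)
        linarith
      · have := Finset.le_max' (insert (c k) V) v (Finset.mem_insert_of_mem hv)
        linarith
    refine ⟨k + 1, fun i => if i ≤ k then c i else x, ⟨?_, ?_⟩, ?_, ?_, ?_⟩
    · show (if 0 ≤ k then c 0 else x) = 0
      rw [if_pos (Nat.zero_le k)]; exact hc.zero
    · intro i hi
      show (if i ≤ k then c i else x) < (if i + 1 ≤ k then c (i + 1) else x)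
      rw [if_pos (by omega)]
      split_ifs with h1
      · exact hc.lt i (by omega)
      · have : i = k := by omega
        rw [this]; exact hx1
    · show (if k + 1 ≤ k then c (k + 1) else x) < L
      rw [if_neg (by omega)]
      exact hx2.trans ha.2
    · intro i hi
      show (if i ≤ k then c i else x) ∉ insert a V
      split_ifs with h1
      · rw [Finset.mem_insert, not_or]
        exact ⟨((hc.mono h1 le_rfl).trans_lt hcL).ne, hcV i h1⟩
      · rw [Finset.mem_insert, not_or]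
        exact ⟨hx2.ne, fun h => lt_irrefl _ (hx3 x h)⟩
    · intro i hi v hv v' hv' h1 h2 h3 h4
      by_cases hik : i ≤ k
      · have h1' : c i ≤ v := by simpa [hik] using h1
        have h2' : c i ≤ v' := by simpa [hik] using h2
        have hvx : ∀ u ∈ insert a V, (i < k + 1 → u ≤ if i + 1 ≤ k then c (i + 1) else x) →
            u ∈ V ∧ (i < k → u ≤ c (i + 1)) := by
          intro u hu hu2
          have hu3 := hu2 (by omega)
          refine ⟨?_, fun hlt => ?_⟩
          · rcases Finset.mem_insert.1 hu with rfl | hu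
            · exfalso
              split_ifs at hu3 with h5
              · exact absurd (hu3.trans (hc.mono h5 le_rfl)) (not_le.2 hcL)
              · linarith
            · exact hu
          · rwa [if_pos (by omega)] at hu3
        obtain ⟨g1, g2⟩ := hvx v hv h3
        obtain ⟨g3, g4⟩ := hvx v' hv' h4
        exact hcu i hik v g1 v' g3 h1' h2' g2 g4
      · have h1' : x ≤ v := by simpa [hik] using h1
        have h2' : x ≤ v' := by simpa [hik] using h2
        have hone : ∀ u ∈ insert a V, x ≤ u → u = a := by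
          intro u hu hxu
          rcases Finset.mem_insert.1 hu with rfl | hu
          · rfl
          · exact absurd (hx3 u hu) (not_lt.2 hxu)
        rw [hone v hv h1', hone v' hv' h2']

end Run7.h117.SR
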