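import Mathlib
import Pool.Agent.Run7.h117.SR.Sharp

/-!
Sharpness, characterisation of the least number of local minima.
-/

set_option autoImplicit false

namespace Run7.h117.SR

open scoped ContDiff RealInnerProductSpace ENNReal NNReal Topology
open MeasureTheory Set Metric Filter
open Pool.Agent.Y503.RB Pool.Agent.N503.ML Pool.Agent.N15.RC

lemma slab_lam (φ : ℂ → E4) (c : ℕ → ℝ) (k i : ℕ) {l : ℝ} (hl : 0 < l) :
    Slab (fun w => lam l (φ w)) (fun j => l * c j) k i = Slab φ c k i := by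
  ext z
  show (z ∈ ball (0 : ℂ) 1 ∧ l * c i < lam l (φ z) 3 ∧ (i < k → lam l (φ z) 3 < l * c (i + 1))) ↔
    (z ∈ ball (0 : ℂ) 1 ∧ c i < φ z 3 ∧ (i < k → φ z 3 < c (i + 1)))
  rw [lam_three, mul_lt_mul_iff_right₀ hl, mul_lt_mul_iff_right₀ hl]

lemma ht_lam (φ : ℂ → E4) (l : ℝ) : (fun w => lam l (φ w) 3) = l • fun w => φ w 3 := by
  funext w
  exact lam_three l (φ w)

lemma locmin_lam {φ : ℂ → E4} {l : ℝ} (hl : 0 < l) (z : ℂ) :
    IsLocalMin (fun w => lam l (φ w) 3) z ↔ IsLocalMin (fun w => φ w 3) z := by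
  constructor
  · intro h
    have h1 : ∀ᶠ w in 𝓝 z, lam l (φ z) 3 ≤ lam l (φ w) 3 := h
    filter_upwards [h1] with w hw
    rw [lam_three, lam_three] at hw
    exact le_of_mul_le_mul_left hw hl
  · intro h
    have h1 : ∀ᶠ w in 𝓝 z, φ z 3 ≤ φ w 3 := h
    filter_upwards [h1] with w hw
    rw [lam_three, lam_three]
    exact mul_le_mul_of_nonneg_left hw hl.le

lemma locmax_lam {φ : ℂ → E4} {l : ℝ} (hl : 0 < l) (z : ℂ) :
    IsLocalMax (fun w => lam l (φ w) 3) z ↔ IsLocalMax (fun w => φ w 3) z := by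
  constructor
  · intro h
    have h1 : ∀ᶠ w in 𝓝 z, lam l (φ w) 3 ≤ lam l (φ z) 3 := h
    filter_upwards [h1] with w hw
    rw [lam_three, lam_three] at hw
    exact le_of_mul_le_mul_left hw hl
  · intro h
    have h1 : ∀ᶠ w in 𝓝 z, φ w 3 ≤ φ z 3 := h
    filter_upwards [h1] with w hw
    rw [lam_three, lam_three]
    exact mul_le_mul_of_nonneg_left hw hl.le

lemma fderiv_lam_ht (φ : ℂ → E4) (l : ℝ) :
    fderiv ℝ (fun w => lam l (φ w) 3) = l • fderiv ℝ (fun w => φ w 3) := by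
  funext z
  rw [ht_lam, fderiv_const_smul_field]

lemma morse_lam {φ : ℂ → E4} (hM : MorseHt φ) {l : ℝ} (hl : 0 < l) :
    MorseHt (fun w => lam l (φ w)) := by
  intro z hz hcr u hu
  rw [fderiv_lam_ht] at hcr hu
  have h1 : l • fderiv ℝ (fun w => φ w 3) z = 0 := hcr
  refine hM z hz ((smul_eq_zero.1 h1).resolve_left hl.ne') u fun v => ?_
  have h2 := hu v
  have e : fderiv ℝ (l • fderiv ℝ (fun w => φ w 3)) z =
      l • fderiv ℝ (fderiv ℝ (fun w => φ w 3)) z := by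
    have h5 := fderiv_const_smul_field (𝕜 := ℝ) (f := fderiv ℝ (fun w => φ w 3)) l
    exact congrFun h5 z
  rw [e] at h2
  have h3 : l * fderiv ℝ (fderiv ℝ (fun w => φ w 3)) z u v = 0 := h2
  exact (mul_eq_zero.1 h3).resolve_left hl.ne'

lemma crit_lam (φ : ℂ → E4) {l : ℝ} (hl : 0 < l) :
    Crit (fun w => lam l (φ w)) = Crit φ := by
  ext z
  refine and_congr_right fun _ => ?_
  rw [fderiv_lam_ht]
  show l • fderiv ℝ (fun w => φ w 3) z = 0 ↔ _
  rw [smul_eq_zero, or_iff_right hl.ne']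

lemma nmin_le {φ ψ : ℂ → E4}
    (h : ∀ z ∈ ball (0 : ℂ) 1, IsLocalMin (fun w => ψ w 3) z → IsLocalMin (fun w => φ w 3) z) :
    nmin ψ ≤ nmin φ := Set.encard_le_encard fun z hz => ⟨hz.1, h z hz.1 hz.2⟩

lemma nmax_le {φ ψ : ℂ → E4}
    (h : ∀ z ∈ ball (0 : ℂ) 1, IsLocalMax (fun w => ψ w 3) z → IsLocalMax (fun w => φ w 3) z) :
    nmax ψ ≤ nmax φ := Set.encard_le_encard fun z hz => ⟨hz.1, h z hz.1 hz.2⟩

/-- a point cannot be both a local minimum and a local maximum -/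
lemma not_both {φ : ℂ → E4} (hM : MorseHt φ) {z : ℂ} (hz : z ∈ ball (0 : ℂ) 1)
    (h1 : IsLocalMin (fun w => φ w 3) z) (h2 : IsLocalMax (fun w => φ w 3) z) : False := by
  have e : (fun w => φ w 3) =ᶠ[𝓝 z] fun _ => φ z 3 := by
    have g1 : ∀ᶠ w in 𝓝 z, φ z 3 ≤ φ w 3 := h1
    have g2 : ∀ᶠ w in 𝓝 z, φ w 3 ≤ φ z 3 := h2
    filter_upwards [g1, g2] with w a b
    exact le_antisymm b a
  have e2 : fderiv ℝ (fun w => φ w 3) =ᶠ[𝓝 z] fun _ => 0 := by
    filter_upwards [e.eventually_nhds] with x hx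
    have hx' : (fun w => φ w 3) =ᶠ[𝓝 x] fun _ => φ z 3 := hx
    rw [hx'.fderiv_eq, fderiv_const_apply]
  have := hM z hz h1.fderiv_eq_zero 1 fun v => by
    rw [e2.fderiv_eq, fderiv_const_apply]; rfl
  exact one_ne_zero this

/-- closures of slabs between regular levels -/
lemma mem_slab_of_closure {φ : ℂ → E4} (h : HalfDisc φ) {c : ℕ → ℝ} {k i : ℕ} (hi : i ≤ k)
    {z : ℂ} (hz : z ∈ ball (0 : ℂ) 1) (hcl : z ∈ closure (Slab φ c k i))
    (hreg : ∀ j ≤ k, φ z 3 ≠ c j) : z ∈ Slab φ c k i := by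
  have hc := (ht_at h (ball_subset_closedBall hz)).continuousAt
  rw [mem_closure_iff_frequently] at hcl
  refine ⟨hz, ?_, fun hlt => ?_⟩
  · refine lt_of_le_of_ne ?_ (hreg i hi).symm
    by_contra hcon
    exact hcl ((hc.eventually (gt_mem_nhds (not_le.1 hcon))).mono fun x hx hx2 =>
      absurd hx2.2.1 (not_lt.2 hx.le))
  · refine lt_of_le_of_ne ?_ (hreg (i + 1) hlt)
    by_contra hcon
    exact hcl ((hc.eventually (lt_mem_nhds (not_le.1 hcon))).mono fun x hx hx2 =>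
      absurd (hx2.2.2 hlt) (not_lt.2 hx.le))

lemma locmax_opp {φ : ℂ → E4} {z : ℂ} :
    IsLocalMax (fun w => opp φ w 3) z ↔ IsLocalMin (fun w => φ w 3) z := by
  constructor
  · intro h
    have h2 : ∀ᶠ w in 𝓝 z, opp φ w 3 ≤ opp φ z 3 := h
    show ∀ᶠ w in 𝓝 z, φ z 3 ≤ φ w 3
    filter_upwards [h2] with w hw
    rw [opp_three, opp_three] at hw
    linarith
  · intro h
    have h2 : ∀ᶠ w in 𝓝 z, φ z 3 ≤ φ w 3 := h
    show ∀ᶠ w in 𝓝 z, opp φ w 3 ≤ opp φ z 3
    filter_upwards [h2] with w hw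
    rw [opp_three, opp_three]
    linarith

/-- **Sharpness.** -/
theorem sharp {φ : ℂ → E4} (h : HalfDisc φ) (hM : MorseHt φ) {κ : ℝ} (hκ0 : 0 < κ) :
    ∃ (ψ : ℂ → E4) (k : ℕ) (c : ℕ → ℝ), HalfDisc ψ ∧ (∀ z ∈ sphere (0 : ℂ) 1, ψ z = φ z) ∧
      MorseHt ψ ∧ nmin ψ ≤ nmin φ ∧ nmax ψ ≤ nmax φ ∧ Levels c k ∧ SteepLevels κ ψ c k ∧
      (∀ z ∈ ball (0 : ℂ) 1, fderiv ℝ (fun w => ψ w 3) z = 0 → ∃ i ≤ k, z ∈ Slab ψ c k i) ∧
      ∀ i ≤ k, minIn ψ (Slab ψ c k i) + maxIn ψ (Slab ψ c k i) ≤ 1 ∧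
        lowIn κ ψ (Slab ψ c k i) ≤ capArea κ * (minIn ψ (Slab ψ c k i) : ℝ≥0∞) ∧
        uppIn κ ψ (Slab ψ c k i) ≤ capArea κ * (maxIn ψ (Slab ψ c k i) : ℝ≥0∞) := by
  classical
  obtain ⟨χ, hχ, hχs, hχM, hfin, hinj, hmin, hmax⟩ := distinct h hM
  set V : Finset ℝ := hfin.toFinset.image (fun z => χ z 3) with hV
  have hVm : ∀ z ∈ Crit χ, χ z 3 ∈ V := fun z hz =>
    Finset.mem_image_of_mem (fun z => χ z 3) (hfin.mem_toFinset.2 hz)
  obtain ⟨B, hB⟩ := V.finite_toSet.bddAbove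
  obtain ⟨k, c, hc, -, hcV, hcu⟩ := exists_levels V (max B 0 + 1)
    (by have := le_max_right B 0; linarith) (by
      intro v hv
      refine ⟨?_, ?_⟩
      · obtain ⟨z, hz, rfl⟩ := Finset.mem_image.1 hv
        exact hχ.inside z (hfin.mem_toFinset.1 hz).1
      · have := hB (Finset.mem_coe.2 hv)
        have := le_max_left B 0
        linarith)
  -- regular levels
  set S : Set ℂ := ⋃ i ∈ Finset.Icc 1 k, (closedBall (0 : ℂ) 1 ∩ (fun z => χ z 3) ⁻¹' {c i})
    with hS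
  have hcont : ContinuousOn (fun z => χ z 3) (closedBall 0 1) := fun z hz =>
    (ht_at hχ hz).continuousAt.continuousWithinAt
  have hSc : IsCompact S := by
    refine Finset.isCompact_biUnion _ fun i _ => ?_
    exact (isCompact_closedBall _ _).of_isClosed_subset
      (hcont.preimage_isClosed_of_isClosed isClosed_closedBall isClosed_singleton)
      inter_subset_left
  have hSb : S ⊆ closedBall 0 1 := iUnion₂_subset fun i _ => inter_subset_left
  have hreg : ∀ z ∈ S, fderiv ℝ (fun w => χ w 3) z ≠ 0 := by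
    intro z hz h0
    obtain ⟨i, hi, hz1, hz2⟩ := mem_iUnion₂.1 hz
    rw [Finset.mem_Icc] at hi
    have hz3 : χ z 3 = c i := hz2
    have hpos := hc.pos hi.1 hi.2
    have hzb : z ∈ ball (0 : ℂ) 1 := by
      rcases eq_or_lt_of_le (mem_closedBall_zero_iff.1 hz1) with h1 | h1
      · have := hχ.bdry z (mem_sphere_zero_iff_norm.2 h1)
        rw [this] at hz3
        linarith
      · exact mem_ball_zero_iff.2 h1
    have := hVm z ⟨hzb, h0⟩
    rw [hz3] at this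
    exact hcV i hi.2 this
  obtain ⟨l₀, hl₀, hst⟩ := steep_lam hχ hκ0 hSc hSb hreg
  have hs := srf_of hχ
  have hslab : ∀ i, Slab χ c k i ⊆ ball 0 1 := fun i z hz => hz.1
  have hn1 := fun i => near_cl hs hχM (Slab χ c k i) (hslab i)
  have hn2 := fun i => near_cl hs.opp (morse_opp hχM) (Slab χ c k i) (hslab i)
  choose ε hε hεb using hn1
  choose ε' hε' hεb' using hn2
  obtain ⟨e, he, hesm⟩ := exists_small k (fun i => min (ε i) (ε' i))
    (fun i _ => lt_min (hε i) (hε' i))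
  set l : ℝ := l₀ + 2 / (κ * e) with hl
  have hl0 : 0 < l := by positivity
  have hlke : 1 < l * (κ * e) := by
    have h1 : l * (κ * e) = l₀ * (κ * e) + 2 := by
      rw [hl, add_mul, div_mul_cancel₀ _ (by positivity)]
    rw [h1]
    have : 0 < l₀ * (κ * e) := by positivity
    linarith
  obtain ⟨hψ, hψs⟩ := halfDisc_lam hχ hl0
  have hloc : ∀ i ≤ k, ∀ z ∈ ball (0 : ℂ) 1, z ∈ closure (Slab χ c k i) →
      fderiv ℝ (fun w => χ w 3) z = 0 → z ∈ Slab χ c k i := fun i hi z hz hcl h0 =>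
    mem_slab_of_closure hχ hi hz hcl fun j hj hcon => hcV j hj (hcon ▸ hVm z ⟨hz, h0⟩)
  have hmineq : ∀ A, minIn (fun w => lam l (χ w)) A = minIn χ A := by
    intro A
    unfold minIn
    simp only [locmin_lam hl0]
  have hmaxeq : ∀ A, maxIn (fun w => lam l (χ w)) A = maxIn χ A := by
    intro A
    unfold maxIn
    simp only [locmax_lam hl0]
  refine ⟨fun w => lam l (χ w), k, fun j => l * c j, hψ, fun z hz => (hψs z hz).trans (hχs z hz),
    morse_lam hχM hl0, nmin_le fun z hz hm => hmin z hz ((locmin_lam hl0 z).1 hm),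
    nmax_le fun z hz hm => hmax z hz ((locmax_lam hl0 z).1 hm), ⟨?_, ?_⟩, ?_, ?_, ?_⟩
  · show l * c 0 = 0
    rw [hc.zero, mul_zero]
  · intro i hi
    exact mul_lt_mul_of_pos_left (hc.lt i hi) hl0
  · intro i h1 h2 z hz hzc
    refine hst l (by rw [hl]; have : 0 < 2 / (κ * e) := by positivity
                     linarith) z ?_
    refine mem_iUnion₂.2 ⟨i, Finset.mem_Icc.2 ⟨h1, h2⟩, ball_subset_closedBall hz, ?_⟩
    have h3 : lam l (χ z) 3 = l * c i := hzc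
    rw [lam_three] at h3
    exact mul_left_cancel₀ hl0.ne' h3
  · intro z hz h0
    have hzC : z ∈ Crit χ := by
      rw [← crit_lam χ hl0]
      exact ⟨hz, h0⟩
    -- find the slab
    have hne : ∀ j ≤ k, χ z 3 ≠ c j := fun j hj hcon => hcV j hj (hcon ▸ hVm z hzC)
    have hex : ∃ j, j ≤ k ∧ c j < χ z 3 := ⟨0, Nat.zero_le k, by rw [hc.zero]; exact hχ.inside z hz⟩
    set j := Nat.findGreatest (fun j => c j < χ z 3) k with hj
    have hj1 : c j < χ z 3 := by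
      obtain ⟨j0, hj0, hj0'⟩ := hex
      exact Nat.findGreatest_spec (P := fun j => c j < χ z 3) hj0 hj0'
    have hjk : j ≤ k := Nat.findGreatest_le k
    refine ⟨j, hjk, ?_⟩
    rw [slab_lam χ c k j hl0]
    refine ⟨hz, hj1, fun hlt => ?_⟩
    have h1 := Nat.findGreatest_is_greatest (P := fun j => c j < χ z 3) (n := k) (k := j + 1)
      (by rw [← hj]; omega) hlt
    exact lt_of_le_of_ne (not_lt.1 h1) (hne (j + 1) hlt)
  · intro i hi
    have hei : e < ε i := (hesm i hi).trans_le (min_le_left _ _)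
    have hei' : e < ε' i := (hesm i hi).trans_le (min_le_right _ _)
    rw [slab_lam χ c k i hl0, hmineq, hmaxeq]
    refine ⟨?_, ?_, ?_⟩
    · have hdis : Disjoint {z : ℂ | z ∈ Slab χ c k i ∧ IsLocalMin (fun w => χ w 3) z}
          {z : ℂ | z ∈ Slab χ c k i ∧ IsLocalMax (fun w => χ w 3) z} := by
        rw [Set.disjoint_left]
        intro z hz1 hz2
        exact not_both hχM hz1.1.1 hz1.2 hz2.2
      unfold minIn maxIn
      rw [← Set.encard_union_eq hdis, Set.encard_le_one_iff]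
      have hcr : ∀ z, z ∈ {z : ℂ | z ∈ Slab χ c k i ∧ IsLocalMin (fun w => χ w 3) z} ∪
          {z : ℂ | z ∈ Slab χ c k i ∧ IsLocalMax (fun w => χ w 3) z} →
          z ∈ Slab χ c k i ∧ z ∈ Crit χ := by
        intro z hz
        rcases hz with hz | hz
        · exact ⟨hz.1, hz.1.1, hz.2.fderiv_eq_zero⟩
        · exact ⟨hz.1, hz.1.1, hz.2.fderiv_eq_zero⟩
      intro z z' hz hz'
      obtain ⟨a1, a2⟩ := hcr z hz
      obtain ⟨b1, b2⟩ := hcr z' hz'
      exact hinj a2 b2 (hcu i hi _ (hVm z a2) _ (hVm z' b2) a1.2.1.le b1.2.1.le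
        (fun hlt => (a1.2.2 hlt).le) (fun hlt => (b1.2.2 hlt).le))
    · rw [← low_eq, ← lam_opp]
      refine upp_lam hs.opp hκ0 (measurable_slab hχ c k i) (hslab i) he (fun p hp s hss => ?_)
        hl0 hlke
      refine (hεb' i p (hp.trans hei') s hss).trans (Set.encard_le_encard fun z hz => ?_)
      have h1 := locmax_opp.1 hz.2
      exact ⟨hloc i hi z hz.1.1 hz.1.2 h1.fderiv_eq_zero, h1⟩
    · rw [← upp_eq]
      refine upp_lam hs hκ0 (measurable_slab hχ c k i) (hslab i) he (fun p hp s hss => ?_)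
        hl0 hlke
      refine (hεb i p (hp.trans hei) s hss).trans (Set.encard_le_encard fun z hz => ?_)
      exact ⟨hloc i hi z hz.1.1 hz.1.2 hz.2.fderiv_eq_zero, hz.2⟩

end Run7.h117.SR
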