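import Mathlib
import Pool.Agent.Run7.h117.SR.Final

/-!
The least number of local minima and the curvature in slabs; vertical levels.
-/

set_option autoImplicit false

namespace Run7.h117.SR

open scoped ContDiff RealInnerProductSpace ENNReal NNReal Topology
open MeasureTheory Set Metric Filter
open Pool.Agent.Y503.RB Pool.Agent.N503.ML Pool.Agent.N15.RC

lemma sum_encard (k : ℕ) (F : ℕ → Set ℂ) (X : Set ℂ) (hX : ∀ z ∈ X, ∃ i ≤ k, z ∈ F i) :
    X.encard ≤ ∑ i ∈ Finset.range (k + 1), (F i).encard := by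
  have hsub : X ⊆ ⋃ i ∈ Finset.range (k + 1), F i := by
    intro z hz
    obtain ⟨i, hi, hzi⟩ := hX z hz
    exact mem_iUnion₂.2 ⟨i, Finset.mem_range.2 (by omega), hzi⟩
  have hun : ∀ t : Finset ℕ, (⋃ i ∈ t, F i).encard ≤ ∑ i ∈ t, (F i).encard := by
    intro t
    classical
    induction t using Finset.induction_on with
    | empty => simp
    | insert i s his ih =>
      rw [Finset.set_biUnion_insert, Finset.sum_insert his]
      exact (Set.encard_union_le _ _).trans (add_le_add le_rfl ih)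
  exact (Set.encard_le_encard hsub).trans (hun _)

/-- Both kinds of extrema at the same time. -/
theorem few_both {φ : ℂ → E4} (h : HalfDisc φ) {κ : ℝ} (hκ0 : 0 < κ) (hκ : κ < 1) (k : ℕ)
    (c : ℕ → ℝ) (hc : Cut κ φ c k) (m n : ℕ → ℕ)
    (hm : ∀ i ≤ k, lowIn κ φ (Slab φ c k i) / (m i + 1) + uppIn κ φ (Slab φ c k i) / (n i + 1) <
      capArea κ) :
    ∃ ψ : ℂ → E4, HalfDisc ψ ∧ (∀ z ∈ sphere (0 : ℂ) 1, ψ z = φ z) ∧ MorseHt ψ ∧
      nmin ψ ≤ ((∑ i ∈ Finset.range (k + 1), m i : ℕ) : ℕ∞) ∧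
      nmax ψ ≤ ((∑ i ∈ Finset.range (k + 1), n i : ℕ) : ℕ∞) := by
  obtain ⟨ψ, h1, h2, h3, h4, h5⟩ := slabs h hκ0 hκ k c hc.1 hc.2
    (fun i => ((m i : ℝ≥0) + 1)⁻¹) (fun i => ((n i : ℝ≥0) + 1)⁻¹)
  obtain ⟨v1, v2⟩ := capArea_pos hκ
  have hcast : ∀ j : ℕ, (((((j : ℝ≥0) + 1)⁻¹ : ℝ≥0)) : ℝ≥0∞) = ((j : ℝ≥0∞) + 1)⁻¹ := by
    intro j
    rw [ENNReal.coe_inv (by positivity)]
    push_cast
    rfl
  have hj0 : ∀ j : ℕ, (j : ℝ≥0∞) + 1 ≠ 0 := fun j => by simp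
  have hjt : ∀ j : ℕ, (j : ℝ≥0∞) + 1 ≠ ⊤ := fun j => by simp
  have key : ∀ i ≤ k, capArea κ * (minIn ψ (Slab φ c k i) : ℝ≥0∞) < capArea κ * (m i + 1) ∧
      capArea κ * (maxIn ψ (Slab φ c k i) : ℝ≥0∞) < capArea κ * (n i + 1) := by
    intro i hi
    have h6 := h5 i hi
    simp only [hcast] at h6
    have h7 : capArea κ * (((m i : ℝ≥0∞) + 1)⁻¹ * (minIn ψ (Slab φ c k i) : ℝ≥0∞) +
        ((n i : ℝ≥0∞) + 1)⁻¹ * (maxIn ψ (Slab φ c k i) : ℝ≥0∞)) < capArea κ := by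
      refine (h6.trans_eq ?_).trans_lt (hm i hi)
      rw [ENNReal.div_eq_inv_mul, ENNReal.div_eq_inv_mul]
    have hgen : ∀ (j : ℕ) (N : ℝ≥0∞), capArea κ * (((j : ℝ≥0∞) + 1)⁻¹ * N) < capArea κ →
        capArea κ * N < capArea κ * (j + 1) := by
      intro j N hN
      have h8 := (ENNReal.mul_lt_mul_iff_right (hj0 j) (hjt j)).2 hN
      calc capArea κ * N = (j + 1) * (capArea κ * (((j : ℝ≥0∞) + 1)⁻¹ * N)) := by
            rw [mul_left_comm, ← mul_assoc ((j : ℝ≥0∞) + 1), ENNReal.mul_inv_cancel (hj0 j) (hjt j),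
              one_mul]
        _ < (j + 1) * capArea κ := h8
        _ = _ := mul_comm _ _
    constructor
    · refine hgen _ _ (lt_of_le_of_lt ?_ h7)
      exact mul_le_mul_right le_self_add _
    · refine hgen _ _ (lt_of_le_of_lt ?_ h7)
      exact mul_le_mul_right le_add_self _
  refine ⟨ψ, h1, h2, h3, ?_, ?_⟩
  · refine (sum_encard k (fun i => {z : ℂ | z ∈ Slab φ c k i ∧ IsLocalMin (fun w => ψ w 3) z}) _
      (fun z hz => ?_)).trans ?_
    · obtain ⟨i, hi, hzi⟩ := h4 z hz.1 (Or.inl hz.2)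
      exact ⟨i, hi, hzi, hz.2⟩
    · rw [Nat.cast_sum]
      refine Finset.sum_le_sum fun i hi => ?_
      have hik : i ≤ k := by have := Finset.mem_range.1 hi; omega
      exact enat_le_of_lt v1 v2 le_rfl (key i hik).1
  · refine (sum_encard k (fun i => {z : ℂ | z ∈ Slab φ c k i ∧ IsLocalMax (fun w => ψ w 3) z}) _
      (fun z hz => ?_)).trans ?_
    · obtain ⟨i, hi, hzi⟩ := h4 z hz.1 (Or.inr hz.2)
      exact ⟨i, hi, hzi, hz.2⟩
    · rw [Nat.cast_sum]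
      refine Finset.sum_le_sum fun i hi => ?_
      have hik : i ≤ k := by have := Finset.mem_range.1 hi; omega
      exact enat_le_of_lt v1 v2 le_rfl (key i hik).2

/-- sums of the local counts over the slabs -/
lemma sum_min_le {φ : ℂ → E4} {c : ℕ → ℝ} {k : ℕ} (hc : Levels c k) :
    ∑ i ∈ Finset.range (k + 1), minIn φ (Slab φ c k i) ≤ nmin φ := by
  classical
  have hgen : ∀ t : Finset ℕ, (∀ i ∈ t, i ≤ k) → ∑ i ∈ t, minIn φ (Slab φ c k i) =
      (⋃ i ∈ t, {z : ℂ | z ∈ Slab φ c k i ∧ IsLocalMin (fun w => φ w 3) z}).encard := by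
    intro t
    induction t using Finset.induction_on with
    | empty => intro _; simp
    | insert i s his ih =>
      intro hs
      rw [Finset.set_biUnion_insert, Finset.sum_insert his,
        ih fun j hj => hs j (Finset.mem_insert_of_mem hj), Set.encard_union_eq]
      · rfl
      · rw [Set.disjoint_left]
        intro z hz1 hz2
        obtain ⟨j, hj, hz3⟩ := mem_iUnion₂.1 hz2
        have := slab_disjoint hc (hs i (Finset.mem_insert_self _ _))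
          (hs j (Finset.mem_insert_of_mem hj)) hz1.1 hz3.1
        rw [this] at his
        exact his hj
  rw [hgen _ fun i hi => by have := Finset.mem_range.1 hi; omega]
  refine Set.encard_le_encard (iUnion₂_subset fun i _ z hz => ⟨hz.1.1, hz.2⟩)

lemma sum_max_le {φ : ℂ → E4} {c : ℕ → ℝ} {k : ℕ} (hc : Levels c k) :
    ∑ i ∈ Finset.range (k + 1), maxIn φ (Slab φ c k i) ≤ nmax φ := by
  classical
  have hgen : ∀ t : Finset ℕ, (∀ i ∈ t, i ≤ k) → ∑ i ∈ t, maxIn φ (Slab φ c k i) =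
      (⋃ i ∈ t, {z : ℂ | z ∈ Slab φ c k i ∧ IsLocalMax (fun w => φ w 3) z}).encard := by
    intro t
    induction t using Finset.induction_on with
    | empty => intro _; simp
    | insert i s his ih =>
      intro hs
      rw [Finset.set_biUnion_insert, Finset.sum_insert his,
        ih fun j hj => hs j (Finset.mem_insert_of_mem hj), Set.encard_union_eq]
      · rfl
      · rw [Set.disjoint_left]
        intro z hz1 hz2
        obtain ⟨j, hj, hz3⟩ := mem_iUnion₂.1 hz2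
        have := slab_disjoint hc (hs i (Finset.mem_insert_self _ _))
          (hs j (Finset.mem_insert_of_mem hj)) hz1.1 hz3.1
        rw [this] at his
        exact his hj
  rw [hgen _ fun i hi => by have := Finset.mem_range.1 hi; omega]
  refine Set.encard_le_encard (iUnion₂_subset fun i _ z hz => ⟨hz.1.1, hz.2⟩)

/-- **Local minima.** -/
theorem tfae_slabs (γ : ℂ → E4) (m : ℕ) {κ : ℝ} (hκ0 : 0 < κ) (hκ : κ < 1) :
    List.TFAE [
      ∃ ψ : ℂ → E4, Bounds γ ψ ∧ MorseHt ψ ∧ nmin ψ ≤ m,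
      ∃ (φ : ℂ → E4) (k : ℕ) (c : ℕ → ℝ) (μ : ℕ → ℕ), Bounds γ φ ∧ Cut κ φ c k ∧
        ∑ i ∈ Finset.range (k + 1), μ i ≤ m ∧
        ∀ i ≤ k, lowIn κ φ (Slab φ c k i) < capArea κ * (μ i + 1),
      ∃ (φ : ℂ → E4) (k : ℕ) (c : ℕ → ℝ) (T : Finset ℕ), Bounds γ φ ∧ Cut κ φ c k ∧
        T.card ≤ m ∧ ∀ i ≤ k, (i ∈ T → lowIn κ φ (Slab φ c k i) ≤ capArea κ) ∧
          (i ∉ T → lowIn κ φ (Slab φ c k i) = 0)] := by
  classical
  obtain ⟨v1, v2⟩ := capArea_pos hκ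
  tfae_have 1 → 3 := by
    rintro ⟨ψ, ⟨h1, h2⟩, h3, h4⟩
    obtain ⟨φ, k, c, g1, g2, g3, g4, g5, g6, g7, g8, g9⟩ := sharp h1 h3 hκ0
    refine ⟨φ, k, c, (Finset.range (k + 1)).filter fun i => minIn φ (Slab φ c k i) ≠ 0,
      ⟨g1, fun z hz => (g2 z hz).trans (h2 z hz)⟩, ⟨g6, g7⟩, ?_, fun i hi => ⟨fun _ => ?_, fun hT => ?_⟩⟩
    · have h5 : (((Finset.range (k + 1)).filter fun i => minIn φ (Slab φ c k i) ≠ 0).card : ℕ∞) ≤
          m := by
        refine le_trans ?_ ((sum_min_le g6).trans (g4.trans h4))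
        rw [Finset.card_eq_sum_ones, Nat.cast_sum, Finset.sum_filter]
        refine Finset.sum_le_sum fun i _ => ?_
        split_ifs with h6
        · exact_mod_cast Order.one_le_iff_ne_zero.2 h6
        · exact bot_le
      exact_mod_cast h5
    · obtain ⟨a1, a2, -⟩ := g9 i hi
      have a3 : minIn φ (Slab φ c k i) ≤ 1 := le_self_add.trans a1
      have a4 : (minIn φ (Slab φ c k i) : ℝ≥0∞) ≤ 1 := by exact_mod_cast a3
      calc _ ≤ capArea κ * (minIn φ (Slab φ c k i) : ℝ≥0∞) := a2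
        _ ≤ capArea κ * 1 := mul_le_mul_right a4 _
        _ = _ := mul_one _
    · have h6 : minIn φ (Slab φ c k i) = 0 := by
        by_contra hne
        exact hT (Finset.mem_filter.2 ⟨Finset.mem_range.2 (by omega), hne⟩)
      obtain ⟨-, a2, -⟩ := g9 i hi
      rw [h6] at a2
      simpa using a2
  tfae_have 3 → 2 := by
    rintro ⟨φ, k, c, T, h1, h2, h3, h4⟩
    refine ⟨φ, k, c, fun i => if i ∈ T then 1 else 0, h1, h2, ?_, fun i hi => ?_⟩
    · rw [← Finset.sum_filter, ← Finset.card_eq_sum_ones]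
      refine (Finset.card_le_card ?_).trans h3
      intro i hi
      exact (Finset.mem_filter.1 hi).2
    · show lowIn κ φ (Slab φ c k i) < capArea κ * (((if i ∈ T then 1 else 0 : ℕ) : ℝ≥0∞) + 1)
      by_cases hT : i ∈ T
      · rw [if_pos hT]
        refine ((h4 i hi).1 hT).trans_lt ?_
        have h5 : (1 : ℝ≥0∞) < ((1 : ℕ) : ℝ≥0∞) + 1 := by norm_num
        calc capArea κ = capArea κ * 1 := (mul_one _).symm
          _ < _ := (ENNReal.mul_lt_mul_iff_right v1 v2).2 h5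
      · rw [if_neg hT, (h4 i hi).2 hT]
        simpa [pos_iff_ne_zero] using v1
  tfae_have 2 → 1 := by
    rintro ⟨φ, k, c, μ, ⟨h1, h2⟩, h3, h4, h5⟩
    obtain ⟨ψ, g1, g2, g3, g4⟩ := few_min h1 hκ0 hκ k c h3.1 h3.2 μ h5
    exact ⟨ψ, ⟨g1, fun z hz => (g2 z hz).trans (h2 z hz)⟩, g3, g4.trans (by exact_mod_cast h4)⟩
  tfae_finish

/-- **Pairs of numbers of local minima and maxima.** -/
theorem tfae_pairs (γ : ℂ → E4) (m n : ℕ) {κ : ℝ} (hκ0 : 0 < κ) (hκ : κ < 1) :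
    List.TFAE [
      ∃ ψ : ℂ → E4, Bounds γ ψ ∧ MorseHt ψ ∧ nmin ψ ≤ m ∧ nmax ψ ≤ n,
      ∃ (φ : ℂ → E4) (k : ℕ) (c : ℕ → ℝ) (μ ν : ℕ → ℕ), Bounds γ φ ∧ Cut κ φ c k ∧
        ∑ i ∈ Finset.range (k + 1), μ i ≤ m ∧ ∑ i ∈ Finset.range (k + 1), ν i ≤ n ∧
        ∀ i ≤ k, lowIn κ φ (Slab φ c k i) / (μ i + 1) + uppIn κ φ (Slab φ c k i) / (ν i + 1) <
          capArea κ,
      ∃ (φ : ℂ → E4) (k : ℕ) (c : ℕ → ℝ) (S T : Finset ℕ), Bounds γ φ ∧ Cut κ φ c k ∧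
        Disjoint S T ∧ S.card ≤ m ∧ T.card ≤ n ∧
        ∀ i ≤ k, lowIn κ φ (Slab φ c k i) ≤ capArea κ ∧ uppIn κ φ (Slab φ c k i) ≤ capArea κ ∧
          (i ∉ S → lowIn κ φ (Slab φ c k i) = 0) ∧ (i ∉ T → uppIn κ φ (Slab φ c k i) = 0)] := by
  classical
  obtain ⟨v1, v2⟩ := capArea_pos hκ
  tfae_have 1 → 3 := by
    rintro ⟨ψ, ⟨h1, h2⟩, h3, h4, h4'⟩
    obtain ⟨φ, k, c, g1, g2, g3, g4, g5, g6, g7, g8, g9⟩ := sharp h1 h3 hκ0
    refine ⟨φ, k, c, (Finset.range (k + 1)).filter fun i => minIn φ (Slab φ c k i) ≠ 0,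
      (Finset.range (k + 1)).filter fun i => maxIn φ (Slab φ c k i) ≠ 0,
      ⟨g1, fun z hz => (g2 z hz).trans (h2 z hz)⟩, ⟨g6, g7⟩, ?_, ?_, ?_, fun i hi => ?_⟩
    · rw [Finset.disjoint_left]
      intro i hi1 hi2
      obtain ⟨b1, b2⟩ := Finset.mem_filter.1 hi1
      obtain ⟨b3, b4⟩ := Finset.mem_filter.1 hi2
      obtain ⟨a1, -⟩ := g9 i (by have := Finset.mem_range.1 b1; omega)
      have c1 := Order.one_le_iff_ne_zero.2 b2
      have c2 := Order.one_le_iff_ne_zero.2 b4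
      have c3 : (1 : ℕ∞) + 1 ≤ 1 := (add_le_add c1 c2).trans a1
      exact absurd c3 (by decide)
    · have h5 : (((Finset.range (k + 1)).filter fun i => minIn φ (Slab φ c k i) ≠ 0).card : ℕ∞) ≤
          m := by
        refine le_trans ?_ ((sum_min_le g6).trans (g4.trans h4))
        rw [Finset.card_eq_sum_ones, Nat.cast_sum, Finset.sum_filter]
        refine Finset.sum_le_sum fun i _ => ?_
        split_ifs with h6
        · exact_mod_cast Order.one_le_iff_ne_zero.2 h6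
        · exact bot_le
      exact_mod_cast h5
    · have h5 : (((Finset.range (k + 1)).filter fun i => maxIn φ (Slab φ c k i) ≠ 0).card : ℕ∞) ≤
          n := by
        refine le_trans ?_ ((sum_max_le g6).trans (g5.trans h4'))
        rw [Finset.card_eq_sum_ones, Nat.cast_sum, Finset.sum_filter]
        refine Finset.sum_le_sum fun i _ => ?_
        split_ifs with h6
        · exact_mod_cast Order.one_le_iff_ne_zero.2 h6
        · exact bot_le
      exact_mod_cast h5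
    · obtain ⟨a1, a2, a2'⟩ := g9 i hi
      have hle : ∀ (N : ℕ∞) (x : ℝ≥0∞), N ≤ 1 → x ≤ capArea κ * (N : ℝ≥0∞) → x ≤ capArea κ := by
        intro N x hN hx
        have a4 : (N : ℝ≥0∞) ≤ 1 := by exact_mod_cast hN
        calc _ ≤ capArea κ * (N : ℝ≥0∞) := hx
          _ ≤ capArea κ * 1 := mul_le_mul_right a4 _
          _ = _ := mul_one _
      refine ⟨hle _ _ (le_self_add.trans a1) a2, hle _ _ (le_add_self.trans a1) a2', fun hT => ?_,
        fun hT => ?_⟩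
      · have h6 : minIn φ (Slab φ c k i) = 0 := by
          by_contra hne
          exact hT (Finset.mem_filter.2 ⟨Finset.mem_range.2 (by omega), hne⟩)
        rw [h6] at a2
        simpa using a2
      · have h6 : maxIn φ (Slab φ c k i) = 0 := by
          by_contra hne
          exact hT (Finset.mem_filter.2 ⟨Finset.mem_range.2 (by omega), hne⟩)
        rw [h6] at a2'
        simpa using a2'
  tfae_have 3 → 2 := by
    rintro ⟨φ, k, c, S, T, h1, h2, hd, h3, h3', h4⟩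
    refine ⟨φ, k, c, fun i => if i ∈ S then 1 else 0, fun i => if i ∈ T then 1 else 0, h1, h2, ?_,
      ?_, fun i hi => ?_⟩
    · rw [← Finset.sum_filter, ← Finset.card_eq_sum_ones]
      refine (Finset.card_le_card ?_).trans h3
      intro i hi
      exact (Finset.mem_filter.1 hi).2
    · rw [← Finset.sum_filter, ← Finset.card_eq_sum_ones]
      refine (Finset.card_le_card ?_).trans h3'
      intro i hi
      exact (Finset.mem_filter.1 hi).2
    · show lowIn κ φ (Slab φ c k i) / (((if i ∈ S then 1 else 0 : ℕ) : ℝ≥0∞) + 1) +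
        uppIn κ φ (Slab φ c k i) / (((if i ∈ T then 1 else 0 : ℕ) : ℝ≥0∞) + 1) < capArea κ
      obtain ⟨b1, b2, b3, b4⟩ := h4 i hi
      have hhalf : ∀ x ≤ capArea κ, x / (((1 : ℕ) : ℝ≥0∞) + 1) < capArea κ := by
        intro x hx
        have h5 : ((1 : ℕ) : ℝ≥0∞) + 1 = 2 := by norm_num
        rw [h5]
        exact (ENNReal.div_le_div_right hx 2).trans_lt (ENNReal.half_lt_self v1 v2)
      by_cases hS : i ∈ S
      · have hT : i ∉ T := fun h => (Finset.disjoint_left.1 hd) hS h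
        rw [if_pos hS, if_neg hT, b4 hT, ENNReal.zero_div, add_zero]
        exact hhalf _ b1
      · rw [if_neg hS, b3 hS, ENNReal.zero_div, zero_add]
        by_cases hT : i ∈ T
        · rw [if_pos hT]
          exact hhalf _ b2
        · rw [if_neg hT, b4 hT, ENNReal.zero_div]
          exact pos_iff_ne_zero.2 v1
  tfae_have 2 → 1 := by
    rintro ⟨φ, k, c, μ, ν, ⟨h1, h2⟩, h3, h4, h4', h5⟩
    obtain ⟨ψ, g1, g2, g3, g4, g5⟩ := few_both h1 hκ0 hκ k c h3 μ ν h5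
    exact ⟨ψ, ⟨g1, fun z hz => (g2 z hz).trans (h2 z hz)⟩, g3, g4.trans (by exact_mod_cast h4),
      g5.trans (by exact_mod_cast h4')⟩
  tfae_finish

/-- Every slice disc can be cut into slabs with at most the critical curvature. -/
theorem exists_critical {γ φ₀ : ℂ → E4} (h : Bounds γ φ₀) {κ : ℝ} (hκ0 : 0 < κ) :
    ∃ (φ : ℂ → E4) (k : ℕ) (c : ℕ → ℝ), Bounds γ φ ∧ Cut κ φ c k ∧
      ∀ i ≤ k, lowIn κ φ (Slab φ c k i) ≤ capArea κ := by
  obtain ⟨ψ, h1, h2, h3, -⟩ := extrema_of_curv h.1 0 0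
  obtain ⟨φ, k, c, g1, g2, g3, g4, g5, g6, g7, g8, g9⟩ := sharp h1 h3 hκ0
  refine ⟨φ, k, c, ⟨g1, fun z hz => (g2 z hz).trans ((h2 z hz).trans (h.2 z hz))⟩, ⟨g6, g7⟩,
    fun i hi => ?_⟩
  obtain ⟨a1, a2, -⟩ := g9 i hi
  have a4 : (minIn φ (Slab φ c k i) : ℝ≥0∞) ≤ 1 := by
    have a3 : minIn φ (Slab φ c k i) ≤ 1 := le_self_add.trans a1
    exact_mod_cast a3
  calc _ ≤ capArea κ * (minIn φ (Slab φ c k i) : ℝ≥0∞) := a2
    _ ≤ capArea κ * 1 := mul_le_mul_right a4 _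
    _ = _ := mul_one _

theorem ribbon_of_strict {γ φ : ℂ → E4} {κ : ℝ} (hκ0 : 0 < κ) (hκ : κ < 1) {k : ℕ} {c : ℕ → ℝ}
    (h : Bounds γ φ) (hc : Cut κ φ c k)
    (hs : ∀ i ≤ k, lowIn κ φ (Slab φ c k i) < capArea κ) : Ribbon γ := by
  obtain ⟨ψ, g1, g2, g3, g4⟩ := few_min h.1 hκ0 hκ k c hc.1 hc.2 (fun _ => 0) (fun i hi => by
    simpa using hs i hi)
  refine ⟨ψ, ⟨g1, fun z hz => (g2 z hz).trans (h.2 z hz)⟩, g3, ?_⟩
  simpa using g4

/-- **The gap.** -/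
theorem gap (κ : ℝ) (hκ0 : 0 < κ) (hκ : κ < 1) (γ : ℂ → E4) :
    (Ribbon γ ↔ ∃ (φ : ℂ → E4) (k : ℕ) (c : ℕ → ℝ), Bounds γ φ ∧ Cut κ φ c k ∧
      ∀ i ≤ k, lowIn κ φ (Slab φ c k i) < capArea κ) ∧
    ((∃ φ : ℂ → E4, Bounds γ φ) ↔ ∃ (φ : ℂ → E4) (k : ℕ) (c : ℕ → ℝ), Bounds γ φ ∧ Cut κ φ c k ∧
      ∀ i ≤ k, lowIn κ φ (Slab φ c k i) ≤ capArea κ) := by
  obtain ⟨v1, v2⟩ := capArea_pos hκ
  refine ⟨⟨?_, ?_⟩, ⟨?_, ?_⟩⟩
  · rintro ⟨ψ, h1, h2, h3⟩
    have h5 : ∃ ψ : ℂ → E4, Bounds γ ψ ∧ MorseHt ψ ∧ nmin ψ ≤ (0 : ℕ) :=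
      ⟨ψ, h1, h2, by simp [h3]⟩
    have h6 := ((tfae_slabs γ 0 hκ0 hκ).out 0 2).1 h5
    obtain ⟨φ, k, c, T, a1, a2, a3, a4⟩ := h6
    have hT : T = ∅ := by
      rw [← Finset.card_eq_zero]
      omega
    refine ⟨φ, k, c, a1, a2, fun i hi => ?_⟩
    rw [(a4 i hi).2 (by rw [hT]; exact Finset.notMem_empty i)]
    exact pos_iff_ne_zero.2 v1
  · rintro ⟨φ, k, c, h1, h2, h3⟩
    exact ribbon_of_strict hκ0 hκ h1 h2 h3
  · rintro ⟨φ, h⟩
    exact exists_critical h hκ0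
  · rintro ⟨φ, k, c, h, -⟩
    exact ⟨φ, h⟩

end Run7.h117.SR
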