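import Mathlib
import Pool.Agent.Run7.h117.SR.Res

/-!
Levels which are crossed vertically.
-/

set_option autoImplicit false

namespace Run7.h117.SR

open scoped ContDiff RealInnerProductSpace ENNReal NNReal Topology
open MeasureTheory Set Metric Filter
open Pool.Agent.Y503.RB Pool.Agent.N503.ML Pool.Agent.N15.RC

lemma low_le_all (κ : ℝ) (φ : ℂ → E4) (A : Set ℂ) : lowIn κ φ A ≤ lowAll φ A := by
  refine lintegral_mono fun z => iSup₂_mono fun L hL => lintegral_mono fun θ => ?_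
  apply ENNReal.ofReal_le_ofReal
  unfold densLow densL
  split_ifs with h1 h2 h2
  · exact le_rfl
  · exact absurd h1.2 h2
  · exact div_nonneg h2.2.2.le (Real.sqrt_nonneg _)
  · exact le_rfl

lemma upp_le_all (κ : ℝ) (φ : ℂ → E4) (A : Set ℂ) : uppIn κ φ A ≤ uppAll φ A := by
  refine lintegral_mono fun z => iSup₂_mono fun L hL => lintegral_mono fun θ => ?_
  apply ENNReal.ofReal_le_ofReal
  unfold densUpp densE
  split_ifs with h1 h2 h2
  · exact le_rfl
  · exact absurd h1.2 h2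
  · exact div_nonneg h2.2.2.le (Real.sqrt_nonneg _)
  · exact le_rfl

/-- The areas of the caps converge to the area of the half-sphere. -/
theorem tendsto_capArea : Tendsto (fun n : ℕ => capArea (1 / ((n : ℝ) + 2))) atTop
    (𝓝 (ENNReal.ofReal (Real.pi ^ 2))) := by
  have hmono : Monotone fun n : ℕ => ball (0 : E4) 1 ∩ Dir (1 / ((n : ℝ) + 2)) := by
    intro a b hab y hy
    refine ⟨hy.1, ?_⟩
    have h1 : 1 / ((a : ℝ) + 2) * ‖y‖ < y 3 := hy.2
    show 1 / ((b : ℝ) + 2) * ‖y‖ < y 3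
    refine lt_of_le_of_lt (mul_le_mul_of_nonneg_right ?_ (norm_nonneg y)) h1
    apply one_div_le_one_div_of_le (by positivity)
    have : (a : ℝ) ≤ b := by exact_mod_cast hab
    linarith
  have hun : (⋃ n : ℕ, ball (0 : E4) 1 ∩ Dir (1 / ((n : ℝ) + 2))) = HB := by
    ext y
    rw [mem_iUnion]
    constructor
    · rintro ⟨n, h1, h2⟩
      have h3 : 1 / ((n : ℝ) + 2) * ‖y‖ < y 3 := h2
      exact ⟨h1, lt_of_le_of_lt (by positivity) h3⟩
    · rintro ⟨h1, h2⟩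
      obtain ⟨n, hn⟩ := exists_nat_gt (‖y‖ / y 3)
      refine ⟨n, h1, ?_⟩
      show 1 / ((n : ℝ) + 2) * ‖y‖ < y 3
      rw [div_lt_iff₀ h2] at hn
      rw [one_div, inv_mul_lt_iff₀ (by positivity)]
      linarith
  have h1 := tendsto_measure_iUnion_atTop (μ := (volume : Measure E4)) hmono
  rw [hun, vol_HB] at h1
  have h2 := ENNReal.Tendsto.const_mul (a := (4 : ℝ≥0∞)) h1 (Or.inr (by norm_num))
  have h3 : (4 : ℝ≥0∞) * ENNReal.ofReal (Real.pi ^ 2 / 4) = ENNReal.ofReal (Real.pi ^ 2) := by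
    have : (4 : ℝ≥0∞) = ENNReal.ofReal 4 := by simp
    rw [this, ← ENNReal.ofReal_mul (by norm_num)]
    congr 1
    ring
  rw [h3] at h2
  exact h2

/-- **Vertical levels.** -/
theorem few_vert {φ : ℂ → E4} (h : HalfDisc φ) (k : ℕ) (c : ℕ → ℝ) (hc : Levels c k)
    (hv : ∀ i, 1 ≤ i → i ≤ k → ∀ z ∈ ball (0 : ℂ) 1, φ z 3 = c i → VertAt φ z) (m n : ℕ → ℕ)
    (hm : ∀ i ≤ k, lowAll φ (Slab φ c k i) / (m i + 1) + uppAll φ (Slab φ c k i) / (n i + 1) <
      ENNReal.ofReal (Real.pi ^ 2)) :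
    ∃ ψ : ℂ → E4, HalfDisc ψ ∧ (∀ z ∈ sphere (0 : ℂ) 1, ψ z = φ z) ∧ MorseHt ψ ∧
      nmin ψ ≤ ((∑ i ∈ Finset.range (k + 1), m i : ℕ) : ℕ∞) ∧
      nmax ψ ≤ ((∑ i ∈ Finset.range (k + 1), n i : ℕ) : ℕ∞) := by
  have h1 : ∀ᶠ j : ℕ in atTop, ∀ i ∈ Finset.range (k + 1),
      lowAll φ (Slab φ c k i) / (m i + 1) + uppAll φ (Slab φ c k i) / (n i + 1) <
        capArea (1 / ((j : ℝ) + 2)) := by
    rw [Filter.eventually_all_finset]
    intro i hi
    exact tendsto_capArea.eventually (lt_mem_nhds (hm i (by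
      have := Finset.mem_range.1 hi; omega)))
  obtain ⟨j, hj⟩ := h1.exists
  have hκ0 : (0 : ℝ) < 1 / ((j : ℝ) + 2) := by positivity
  refine few_both h hκ0 ?_ k c ⟨hc, ?_⟩ m n fun i hi => ?_
  · rw [div_lt_one (by positivity)]
    have : (0 : ℝ) ≤ j := Nat.cast_nonneg j
    linarith
  · intro i h1 h2 z hz hzc n hn hno
    rw [hv i h1 h2 z hz hzc n hn hno]
    exact hκ0
  · refine lt_of_le_of_lt ?_ (hj i (Finset.mem_range.2 (by omega)))
    exact add_le_add (ENNReal.div_le_div_right (low_le_all _ _ _) _)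
      (ENNReal.div_le_div_right (upp_le_all _ _ _) _)

end Run7.h117.SR
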